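import Pool.Agent.Helper9.ST.B2

/-!
Piece B4: from a relation of size `n` derive a nonzero polynomial in `v = x^β` of degree `≤ n`.

Let `u = x^α`, `Y = - (c₂ X + c₃)/c₁`.  `f = c₁ (u - Y(v))`.
Changing signs we may take the relation `(i, j)` with `i > 0`, or `i = 0`, `j > 0`.
Case `i = 0`, `j > 0`: `h = X^j - 1`; `pv β h = single (j • β) 1 - 1 = 0` since `j • β = 0`; use the list
`[0]` or `[0, f]` (`IsProof.zero`).
Case `i > 0`: first lines `f`, `u - Y(v) = single 0 (1/c₁) * f` (2 terms more than needed: it has at most 3 terms), then by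
induction on `k` (`1 ≤ k ≤ i`) derive `u^k - Y^k(v)`: `prodU` with `P₁ = Y^k`, `a = k + 1`, `P₂ = Y`,
`b = 2` (so `k + 3 ≤ n + 2` terms, `k + 2` lines).  After this at most `2 + ∑_{k<i} (k + 2) ≤ (n+2)^2` lines.
 * `j ≥ 0`: one more line `single (j • β) 1 * (u^i - Y^i(v)) = 1 - (X^j Y^i)(v)`; `h = 1 - X^j Y^i`,
   `natDegree h = i + j ≤ n`, `h ≠ 0` since `natDegree (X^j Y^i) = i + j > 0`.
 * `j < 0`: `u^i = v^{|j|}` so `u^i - Y^i(v) = (X^{|j|} - Y^i)(v)`, `h = X^{|j|} - Y^i`,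
   `natDegree ≤ max |j| i ≤ n`; `h ≠ 0` because its value at `0` is `- (- c₃/c₁)^i ≠ 0`.
-/

namespace STri

open Polynomial

variable {K : Type*} [Field K] {N : ℕ}

private theorem B4_f {α β : ZMod N} {c₁ c₂ c₃ : K} {s : ℕ} (hs : 4 ≤ s) :
    IsProof 2 s (tri N α β c₁ c₂ c₃) [tri N α β c₁ c₂ c₃] ∧ nterms (tri N α β c₁ c₂ c₃) ≤ 3 := by
  have h1 : nterms (tri N α β c₁ c₂ c₃) ≤ 3 := by
    rw [tri]
    have h2 := nterms_add_le (AddMonoidAlgebra.single α c₁ + AddMonoidAlgebra.single β c₂)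
      (AddMonoidAlgebra.single (0 : ZMod N) c₃)
    have h3 := nterms_add_le (AddMonoidAlgebra.single α c₁) (AddMonoidAlgebra.single β c₂)
    have h4 := nterms_single_le α c₁
    have h5 := nterms_single_le β c₂
    have h6 := nterms_single_le (0 : ZMod N) c₃
    omega
  exact ⟨IsProof.line IsProof.nil (Or.inl rfl) (by omega), h1⟩

/-- The polynomial `Y`. -/
private noncomputable def B4_Y (c₁ c₂ c₃ : K) : K[X] :=
  C (-(c₁⁻¹ * c₂)) * X + C (-(c₁⁻¹ * c₃))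

private theorem B4_natDegree {c₁ c₂ c₃ : K} (h1 : c₁ ≠ 0) (h2 : c₂ ≠ 0) :
    (B4_Y c₁ c₂ c₃).natDegree = 1 :=
  natDegree_linear (neg_ne_zero.2 (mul_ne_zero (inv_ne_zero h1) h2))

private theorem B4_natDegree_pow {c₁ c₂ c₃ : K} (h1 : c₁ ≠ 0) (h2 : c₂ ≠ 0) (k : ℕ) :
    (B4_Y c₁ c₂ c₃ ^ k).natDegree = k := by
  rw [natDegree_pow, B4_natDegree h1 h2, mul_one]

private theorem B4_degree_pow {c₁ c₂ c₃ : K} (h1 : c₁ ≠ 0) (h2 : c₂ ≠ 0) (k : ℕ) :
    (B4_Y c₁ c₂ c₃ ^ k).degree < ((k + 1 : ℕ) : WithBot ℕ) := by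
  refine lt_of_le_of_lt degree_le_natDegree ?_
  rw [B4_natDegree_pow h1 h2]
  exact_mod_cast Nat.lt_succ_self k

private theorem B4_line (α β : ZMod N) {c₁ c₂ c₃ : K} (h1 : c₁ ≠ 0) :
    AddMonoidAlgebra.single α (1 : K) - pv β (B4_Y c₁ c₂ c₃) =
      AddMonoidAlgebra.single 0 c₁⁻¹ * tri N α β c₁ c₂ c₃ := by
  have h2 : B4_Y c₁ c₂ c₃ = C (-(c₁⁻¹ * c₂)) * X ^ 1 + C (-(c₁⁻¹ * c₃)) := by
    rw [B4_Y, pow_one]
  rw [h2, pv_add, pv_mono, pv_C, tri, mul_add, mul_add, AddMonoidAlgebra.single_mul_single,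
    AddMonoidAlgebra.single_mul_single, AddMonoidAlgebra.single_mul_single, zero_add, zero_add,
    zero_add, inv_mul_cancel₀ h1, one_nsmul, AddMonoidAlgebra.single_neg,
    AddMonoidAlgebra.single_neg]
  abel

private theorem B4_pow (α β : ZMod N) {c₁ c₂ c₃ : K} (h1 : c₁ ≠ 0) (h2 : c₂ ≠ 0) {s : ℕ}
    (k : ℕ) (hk : k + 4 ≤ s) :
    ∃ l : List (Rg K N), IsProof 2 s (tri N α β c₁ c₂ c₃) l ∧ tri N α β c₁ c₂ c₃ ∈ l ∧
      AddMonoidAlgebra.single α (1 : K) - pv β (B4_Y c₁ c₂ c₃) ∈ l ∧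
      AddMonoidAlgebra.single ((k + 1) • α) (1 : K) - pv β (B4_Y c₁ c₂ c₃ ^ (k + 1)) ∈ l ∧
      l.length ≤ (k + 2) ^ 2 := by
  induction k with
  | zero =>
    have h3 := B4_f (α := α) (β := β) (c₁ := c₁) (c₂ := c₂) (c₃ := c₃) (s := s) (by omega)
    have h4 := nterms_single_mul_le (0 : ZMod N) c₁⁻¹ (tri N α β c₁ c₂ c₃)
    have h5 := h3.1.step1 (List.mem_singleton.2 rfl) (0 : ZMod N) c₁⁻¹ (by omega)
    rw [← B4_line α β h1] at h5
    refine ⟨_, h5, by simp, List.mem_cons_self, ?_, by simp⟩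
    rw [zero_add, one_nsmul, pow_one]
    exact List.mem_cons_self
  | succ k ih =>
    obtain ⟨l, hl, hf, hY, hP, hlen⟩ := ih (by omega)
    obtain ⟨new, hnew, hpr, hmem⟩ := prodU hl β ((k + 1) • α) α (a := k + 2) (b := 2)
      (by omega) (by omega) (B4_degree_pow h1 h2 (k + 1))
      (by
        have h3 := B4_degree_pow (c₃ := c₃) h1 h2 1
        rwa [pow_one] at h3) hP hY (by omega)
    refine ⟨new ++ l, hpr, List.mem_append_right _ hf, List.mem_append_right _ hY, ?_, ?_⟩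
    · rw [← pow_succ, ← succ_nsmul] at hmem
      exact hmem
    · rw [List.length_append]
      nlinarith

private theorem B4_pos {α β : ZMod N} {c₁ c₂ c₃ : K} (h1 : c₁ ≠ 0) (h2 : c₂ ≠ 0) (h3 : c₃ ≠ 0)
    {n s : ℕ} (hs : n + 4 ≤ s) {i j : ℤ} (hij : 0 < i ∨ (i = 0 ∧ 0 < j)) (hi : |i| ≤ n)
    (hj : |j| ≤ n) (hsum : |i + j| ≤ n) (hrel : (i : ZMod N) * α + (j : ZMod N) * β = 0) :
    ∃ (h : K[X]) (l : List (Rg K N)), h ≠ 0 ∧ h.natDegree ≤ n ∧
      IsProof 2 s (tri N α β c₁ c₂ c₃) l ∧ tri N α β c₁ c₂ c₃ ∈ l ∧ pv β h ∈ l ∧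
      l.length ≤ (n + 3) ^ 2 := by
  rw [abs_le] at hi hj hsum
  rcases hij with hpos | ⟨rfl, hpos⟩
  · obtain ⟨I, rfl⟩ : ∃ I : ℕ, i = ((I + 1 : ℕ) : ℤ) := ⟨i.toNat - 1, by omega⟩
    obtain ⟨l, hl, hf, hY, hP, hlen⟩ := B4_pow α β (c₃ := c₃) h1 h2 (s := s) I (by omega)
    have hlen2 : l.length + 1 ≤ (n + 3) ^ 2 := by
      have h4 : (I + 2) ^ 2 ≤ (n + 2) ^ 2 := Nat.pow_le_pow_left (by omega) 2
      nlinarith
    rw [Int.cast_natCast, ← nsmul_eq_mul] at hrel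
    rcases le_or_gt 0 j with hj0 | hj0
    · obtain ⟨J, rfl⟩ : ∃ J : ℕ, j = (J : ℤ) := ⟨j.toNat, by omega⟩
      rw [Int.cast_natCast, ← nsmul_eq_mul] at hrel
      have e1 : AddMonoidAlgebra.single (J • β) (1 : K) *
          (AddMonoidAlgebra.single ((I + 1) • α) (1 : K) - pv β (B4_Y c₁ c₂ c₃ ^ (I + 1))) =
          pv β (1 - X ^ J * B4_Y c₁ c₂ c₃ ^ (I + 1)) := by
        have e2 : pv β (X ^ J : K[X]) = AddMonoidAlgebra.single (J • β) (1 : K) := by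
          rw [← pv_mono, C_1, one_mul]
        rw [pv_sub, pv_one, pv_mul, e2, mul_sub, AddMonoidAlgebra.single_mul_single, mul_one,
          add_comm (J • β), hrel, one_eq_single]
      have hnt : nterms (AddMonoidAlgebra.single (J • β) (1 : K) *
          (AddMonoidAlgebra.single ((I + 1) • α) (1 : K) -
            pv β (B4_Y c₁ c₂ c₃ ^ (I + 1)))) ≤ s := by
        have h4 := nterms_single_mul_le (J • β) (1 : K)
          (AddMonoidAlgebra.single ((I + 1) • α) (1 : K) - pv β (B4_Y c₁ c₂ c₃ ^ (I + 1)))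
        have h5 := nterms_sub_le (AddMonoidAlgebra.single ((I + 1) • α) (1 : K))
          (pv β (B4_Y c₁ c₂ c₃ ^ (I + 1)))
        have h6 := nterms_single_le ((I + 1) • α) (1 : K)
        have h7 := nterms_pv_le β (B4_Y c₁ c₂ c₃ ^ (I + 1))
          (B4_degree_pow (c₃ := c₃) h1 h2 (I + 1))
        omega
      have h8 := hl.step1 hP (J • β) (1 : K) hnt
      rw [e1] at h8
      have hX0 : (X ^ J : K[X]) ≠ 0 := pow_ne_zero _ X_ne_zero
      have hY0 : B4_Y c₁ c₂ c₃ ^ (I + 1) ≠ 0 := by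
        intro h9
        have h10 := B4_natDegree_pow (c₃ := c₃) h1 h2 (I + 1)
        rw [h9, natDegree_zero] at h10
        omega
      have hdeg : (X ^ J * B4_Y c₁ c₂ c₃ ^ (I + 1)).natDegree = J + (I + 1) := by
        rw [natDegree_mul hX0 hY0, natDegree_X_pow, B4_natDegree_pow h1 h2]
      refine ⟨1 - X ^ J * B4_Y c₁ c₂ c₃ ^ (I + 1), _, ?_, ?_, h8, List.mem_cons_of_mem _ hf,
        List.mem_cons_self, hlen2⟩
      · intro h9
        have h10 : (X ^ J * B4_Y c₁ c₂ c₃ ^ (I + 1)).natDegree = 0 := by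
          rw [← sub_eq_zero.1 h9, natDegree_one]
        omega
      · refine (natDegree_sub_le _ _).trans ?_
        rw [natDegree_one, hdeg]
        omega
    · obtain ⟨J, rfl⟩ : ∃ J : ℕ, j = -((J + 1 : ℕ) : ℤ) := ⟨(-j).toNat - 1, by omega⟩
      rw [Int.cast_neg, Int.cast_natCast, neg_mul, ← nsmul_eq_mul, ← sub_eq_add_neg,
        sub_eq_zero] at hrel
      have e2 : pv β (X ^ (J + 1) : K[X]) = AddMonoidAlgebra.single ((J + 1) • β) (1 : K) := by
        rw [← pv_mono, C_1, one_mul]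
      refine ⟨X ^ (J + 1) - B4_Y c₁ c₂ c₃ ^ (I + 1), l, ?_, ?_, hl, hf, ?_, by omega⟩
      · intro h9
        have h10 := congrArg (eval 0) h9
        rw [eval_sub, eval_pow, eval_X, eval_pow, eval_zero, zero_pow (Nat.succ_ne_zero J),
          zero_sub, neg_eq_zero, B4_Y] at h10
        simp only [eval_add, eval_mul, eval_C, eval_X, mul_zero, zero_add] at h10
        have h11 := (pow_eq_zero_iff (Nat.succ_ne_zero I)).1 h10
        rw [neg_eq_zero] at h11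
        exact mul_ne_zero (inv_ne_zero h1) h3 h11
      · refine (natDegree_sub_le _ _).trans ?_
        rw [natDegree_X_pow, B4_natDegree_pow h1 h2]
        omega
      · rw [pv_sub, e2, ← hrel]
        exact hP
  · obtain ⟨J, rfl⟩ : ∃ J : ℕ, j = ((J + 1 : ℕ) : ℤ) := ⟨j.toNat - 1, by omega⟩
    rw [Int.cast_zero, zero_mul, zero_add, Int.cast_natCast, ← nsmul_eq_mul] at hrel
    have h4 := B4_f (α := α) (β := β) (c₁ := c₁) (c₂ := c₂) (c₃ := c₃) (s := s) (by omega)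
    have e1 : pv β (X ^ (J + 1) - 1 : K[X]) = 0 := by
      have e2 : pv β (X ^ (J + 1) : K[X]) = AddMonoidAlgebra.single ((J + 1) • β) (1 : K) := by
        rw [← pv_mono, C_1, one_mul]
      rw [pv_sub, pv_one, e2, hrel, one_eq_single, sub_self]
    refine ⟨X ^ (J + 1) - 1, [0, tri N α β c₁ c₂ c₃], ?_, ?_, h4.1.zero, by simp, ?_, ?_⟩
    · have h5 := X_pow_sub_C_ne_zero (R := K) (Nat.succ_pos J) 1
      rwa [C_1] at h5
    · have h5 := natDegree_X_pow_sub_C (R := K) (n := J + 1) (r := 1)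
      rw [C_1] at h5
      rw [h5]
      omega
    · rw [e1]
      exact List.mem_cons_self
    · simp only [List.length_cons, List.length_nil]
      nlinarith

theorem relPoly {α β : ZMod N} {c₁ c₂ c₃ : K} (h1 : c₁ ≠ 0) (h2 : c₂ ≠ 0) (h3 : c₃ ≠ 0)
    {n s : ℕ} (hrel : Rel N α β n) (hs : n + 4 ≤ s) :
    ∃ (h : K[X]) (l : List (Rg K N)), h ≠ 0 ∧ h.natDegree ≤ n ∧
      IsProof 2 s (tri N α β c₁ c₂ c₃) l ∧ tri N α β c₁ c₂ c₃ ∈ l ∧ pv β h ∈ l ∧
      l.length ≤ (n + 3) ^ 2 := by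
  obtain ⟨i, j, hne, hi, hj, hsum, hr⟩ := hrel
  rcases lt_trichotomy i 0 with h0 | h0 | h0
  · refine B4_pos h1 h2 h3 hs (i := -i) (j := -j) (Or.inl (by omega)) ?_ ?_ ?_ ?_
    · rwa [abs_neg]
    · rwa [abs_neg]
    · rwa [← neg_add, abs_neg]
    · push_cast
      linear_combination -hr
  · subst h0
    rcases hne with hne | hne
    · exact absurd rfl hne
    · rcases lt_or_gt_of_ne hne with hj0 | hj0
      · refine B4_pos h1 h2 h3 hs (i := 0) (j := -j) (Or.inr ⟨rfl, by omega⟩) hi ?_ ?_ ?_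
        · rwa [abs_neg]
        · rwa [zero_add, abs_neg, ← zero_add j]
        · push_cast at hr ⊢
          linear_combination -hr
      · exact B4_pos h1 h2 h3 hs (Or.inr ⟨rfl, hj0⟩) hi hj hsum hr
  · exact B4_pos h1 h2 h3 hs (Or.inl h0) hi hj hsum hr

end STri
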