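import Pool.Agent.Helper9.ST.B1

/-!
Piece B5: deriving `1` from `h(v)` and `Q_i(v)` when `h, Q_i` generate the unit ideal of `K[X]`.

There are `A₀`, `A i` with `A₀ * h + ∑ i, A i * Q i = 1` (`Ideal.mem_span_insert`, `Ideal.mem_span_range_iff_exists_fun` or
`Submodule.mem_span_range_iff_exists_fun`).  Replacing `A i` by `A i %ₘ h` (and changing `A₀`) we may assume
`degree (A i) < d`.  Then `A₀ * h = 1 - ∑ A i Q i` has degree `< 2 d - 1`, so `degree A₀ < d - 1`
(if `d = 1`: `A₀ = 0` ... `A₀ h` has degree `< 1`, `h` has degree `1`, so `A₀ = 0`).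
Derive successively the sums `S_t(v)`, `S_t = ∑_{i<t} A i Q i`: start with the line `0`
(`IsProof.zero`), then `addMul` with `A = S_t(v)`, `B = Q_t(v)`, `P = A t`, `k = d`; all intermediate lines are values at `v` of
polynomials of degree `< 2 d - 1`, so have at most `2 d - 1` terms (`nterms_pv_le`).  Finally `addMul` with
`B = h(v)`, `P = A₀`, `k = d - 1`.  Total `1 + k d + (d - 1)` lines.
-/

namespace STri

open Polynomial

variable {K : Type*} [Field K] {N : ℕ}

private theorem b5_deg_mul {P Q : K[X]} {a b c : ℕ} (hP : P.degree < a) (hQ : Q.degree < b)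
    (h : a + b ≤ c + 1) : (P * Q).degree < c := by
  by_cases hP0 : P = 0
  · rw [hP0, zero_mul, degree_zero]
    exact WithBot.bot_lt_coe _
  by_cases hQ0 : Q = 0
  · rw [hQ0, mul_zero, degree_zero]
    exact WithBot.bot_lt_coe _
  rw [degree_eq_natDegree hP0] at hP
  rw [degree_eq_natDegree hQ0] at hQ
  rw [degree_eq_natDegree (mul_ne_zero hP0 hQ0), natDegree_mul hP0 hQ0]
  have h1 : P.natDegree < a := by exact_mod_cast hP
  have h2 : Q.natDegree < b := by exact_mod_cast hQ
  have h3 : P.natDegree + Q.natDegree < c := by omega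
  exact_mod_cast h3

private theorem b5_deg_add {P Q : K[X]} {c : WithBot ℕ} (hP : P.degree < c) (hQ : Q.degree < c) :
    (P + Q).degree < c :=
  lt_of_le_of_lt (degree_add_le P Q) (max_lt hP hQ)

private theorem b5_deg_sum {ι : Type*} (F : Finset ι) (P : ι → K[X]) {c : ℕ}
    (h : ∀ i ∈ F, (P i).degree < c) : (∑ i ∈ F, P i).degree < c := by
  classical
  induction F using Finset.induction_on with
  | empty =>
    rw [Finset.sum_empty, degree_zero]
    exact WithBot.bot_lt_coe _
  | insert i F hi ih =>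
    rw [Finset.sum_insert hi]
    exact b5_deg_add (h i (Finset.mem_insert_self _ _))
      (ih fun j hj => h j (Finset.mem_insert_of_mem hj))

theorem bezout {s d k : ℕ} {f : Rg K N} {l : List (Rg K N)} (hl : IsProof 2 s f l)
    (β : ZMod N) {h : K[X]} (hh : h.Monic) (hd : h.natDegree = d) (hd1 : 1 ≤ d)
    (mh : pv β h ∈ l) (Q : Fin k → K[X]) (hQ : ∀ i, (Q i).degree < d)
    (mQ : ∀ i, pv β (Q i) ∈ l) (hspan : Ideal.span (insert h (Set.range Q)) = ⊤)
    (hs : 2 * d ≤ s) :
    ∃ new : List (Rg K N), new.length ≤ (k + 1) * d ∧ IsProof 2 s f (new ++ l) ∧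
      (1 : Rg K N) ∈ new ++ l := by
  classical
  have h1 : (1 : K[X]) ∈ Ideal.span (insert h (Set.range Q)) := by
    rw [hspan]
    exact Submodule.mem_top
  obtain ⟨a, z, hz, ha⟩ := Ideal.mem_span_insert.1 h1
  obtain ⟨c, hc⟩ := (Ideal.mem_span_range_iff_exists_fun).1 hz
  have hdeg : h.degree = (d : WithBot ℕ) := by
    rw [degree_eq_natDegree hh.ne_zero, hd]
  set A : Fin k → K[X] := fun i => c i %ₘ h with hA
  set A₀ : K[X] := a + ∑ i, (c i /ₘ h) * Q i with hA₀
  have hAdeg : ∀ i, (A i).degree < d := by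
    intro i
    rw [← hdeg]
    exact degree_modByMonic_lt _ hh
  have hsum : (1 : K[X]) = A₀ * h + ∑ i, A i * Q i := by
    rw [ha, ← hc, hA₀, add_mul, Finset.sum_mul, add_assoc, ← Finset.sum_add_distrib]
    congr 1
    refine Finset.sum_congr rfl fun i _ => ?_
    conv_lhs => rw [← modByMonic_add_div (c i) h]
    rw [hA]
    ring
  have hterm : ∀ i, (A i * Q i).degree < ((2 * d - 1 : ℕ) : WithBot ℕ) := fun i =>
    b5_deg_mul (hAdeg i) (hQ i) (by omega)
  have hone : (1 : K[X]).degree < ((2 * d - 1 : ℕ) : WithBot ℕ) := by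
    rw [degree_one]
    have : 0 < 2 * d - 1 := by omega
    exact_mod_cast this
  have hA0deg : A₀.degree < ((d - 1 : ℕ) : WithBot ℕ) := by
    have h2 : A₀ * h = 1 - ∑ i, A i * Q i := by
      rw [hsum]
      ring
    have h3 : (A₀ * h).degree < ((2 * d - 1 : ℕ) : WithBot ℕ) := by
      rw [h2, sub_eq_add_neg]
      refine b5_deg_add hone ?_
      rw [degree_neg]
      exact b5_deg_sum _ _ fun i _ => hterm i
    by_cases h0 : A₀ = 0
    · rw [h0, degree_zero]
      exact WithBot.bot_lt_coe _
    · rw [degree_eq_natDegree (mul_ne_zero h0 hh.ne_zero), natDegree_mul h0 hh.ne_zero, hd] at h3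
      rw [degree_eq_natDegree h0]
      have h4 : A₀.natDegree + d < 2 * d - 1 := by exact_mod_cast h3
      have h5 : A₀.natDegree < d - 1 := by omega
      exact_mod_cast h5
  -- the sums
  have key : ∀ F : Finset (Fin k), ∃ new : List (Rg K N), new.length ≤ 1 + F.card * d ∧
      IsProof 2 s f (new ++ l) ∧ pv β (∑ i ∈ F, A i * Q i) ∈ new ++ l := by
    intro F
    induction F using Finset.induction_on with
    | empty =>
      refine ⟨[0], by simp, hl.zero, ?_⟩
      rw [Finset.sum_empty, pv_zero]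
      simp
    | insert i F hi ih =>
      obtain ⟨new, hlen, hpr, hmem⟩ := ih
      obtain ⟨new', hlen', hpr', hmem'⟩ := hpr.addMul β hmem
        (List.mem_append_right new (mQ i)) (A i) d (hAdeg i) (by
          intro j _ hj
          rw [← pv_mul, ← pv_add]
          have h2 : (∑ i ∈ F, A i * Q i + tr (A i) j * Q i).degree <
              ((2 * d - 1 : ℕ) : WithBot ℕ) :=
            b5_deg_add (b5_deg_sum _ _ fun i _ => hterm i)
              (b5_deg_mul (degree_tr_lt (A i) j) (hQ i) (by omega))
          exact (nterms_pv_le β _ h2).trans (by omega))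
      refine ⟨new' ++ new, ?_, ?_, ?_⟩
      · rw [List.length_append, Finset.card_insert_of_notMem hi, Nat.succ_mul]
        omega
      · rw [List.append_assoc]
        exact hpr'
      · rw [List.append_assoc, Finset.sum_insert hi, pv_add, pv_mul, add_comm]
        exact hmem'
  obtain ⟨new, hlen, hpr, hmem⟩ := key Finset.univ
  obtain ⟨new', hlen', hpr', hmem'⟩ := hpr.addMul β hmem
    (List.mem_append_right new mh) A₀ (d - 1) hA0deg (by
      intro j _ hj
      rw [← pv_mul, ← pv_add]
      have hh1 : h.degree < ((d + 1 : ℕ) : WithBot ℕ) := by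
        rw [hdeg]
        exact_mod_cast Nat.lt_succ_self d
      have h2 : (∑ i, A i * Q i + tr A₀ j * h).degree <
          ((2 * d - 1 : ℕ) : WithBot ℕ) :=
        b5_deg_add (b5_deg_sum _ _ fun i _ => hterm i)
          (b5_deg_mul (degree_tr_lt A₀ j) hh1 (by omega))
      exact (nterms_pv_le β _ h2).trans (by omega))
  refine ⟨new' ++ new, ?_, ?_, ?_⟩
  · rw [List.length_append]
    rw [Finset.card_univ, Fintype.card_fin] at hlen
    rw [Nat.succ_mul]
    omega
  · rw [List.append_assoc]
    exact hpr'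
  · have h2 : (1 : Rg K N) = pv β (∑ i, A i * Q i) + pv β A₀ * pv β h := by
      rw [← pv_mul, ← pv_add, add_comm, ← hsum, pv_one]
    rw [List.append_assoc, h2]
    exact hmem'

end STri
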