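import Mathlib

/-!
Piece B6: number theory.

Let `a = α.val`, `b = β.val`, `g = gcd(a, b, N) ≥ 1` (as integers), `g = s a + t b + m N` for integers
`s, t, m` (`Int.gcd_eq_gcd_ab` twice), `a = g a'`, `b = g b'`, `N = g M`.
Five vectors: `(N, 0)`, `(0, N)`, `(a' s - 1, a' t)`, `(b' s, b' t - 1)`, `(M s, M t)`, the last three with both
coordinates reduced modulo `N` to `[0, N)` (`Int.emod`, `toNat`).
They satisfy `w₁ α + w₂ β = 0` in `ZMod N`: `(a' s - 1) a + a' t b = a' (s a + t b) - a = a' (g - m N) - a = - a' m N`,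
similarly for the fourth; `M s a + M t b = M (g - m N) = N - M m N`.
Now let `υ, ξ` satisfy `υ^{w₁} ξ^{w₂} = 1` for the five vectors.  From the first two `υ^N = ξ^N = 1`, so
`υ, ξ ≠ 0` (`N ≥ 1`), and `υ^{w₁} ξ^{w₂} = 1` also holds (with `zpow`) for the unreduced vectors.
Put `η = υ^s ξ^t` (`zpow`).  Then `η^{a'} = υ`, `η^{b'} = ξ`, `η^M = 1`.  Choose `x` with `x^g = η`
(`IsAlgClosed.exists_pow_nat_eq`, `g > 0`).  Then `x^N = η^M = 1`, `x^a = η^{a'} = υ`, `x^b = ξ`.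
-/

namespace STri

/-- The reduction of an integer modulo `N`. -/
private def b6Red (N : ℕ) (z : ℤ) : ℕ := (z % (N : ℤ)).toNat

private theorem b6Red_spec (N : ℕ) [NeZero N] (z : ℤ) :
    (b6Red N z : ℤ) = z - N * (z / N) := by
  have hN : (N : ℤ) ≠ 0 := by exact_mod_cast NeZero.ne N
  unfold b6Red
  rw [Int.toNat_of_nonneg (Int.emod_nonneg z hN)]
  exact Int.emod_def z N

private theorem b6Red_le (N : ℕ) [NeZero N] (z : ℤ) : b6Red N z ≤ N := by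
  have hN : (0 : ℤ) < N := by exact_mod_cast Nat.pos_of_ne_zero (NeZero.ne N)
  have h1 := Int.emod_lt_of_pos z hN
  unfold b6Red
  omega

private theorem b6Red_cast (N : ℕ) [NeZero N] (z : ℤ) :
    ((b6Red N z : ℕ) : ZMod N) = (z : ZMod N) := by
  have h1 : ((b6Red N z : ℤ) : ZMod N) = ((z - N * (z / N) : ℤ) : ZMod N) := by
    rw [b6Red_spec]
  rw [Int.cast_natCast] at h1
  rw [h1]
  push_cast
  rw [ZMod.natCast_self]
  ring

private theorem b6Red_pow {F : Type*} [Field F] (N : ℕ) [NeZero N] (υ : F) (hυ : υ ^ N = 1)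
    (z : ℤ) : υ ^ (b6Red N z) = υ ^ z := by
  have h0 : υ ≠ 0 := by
    rintro rfl
    rw [zero_pow (NeZero.ne N)] at hυ
    exact zero_ne_one hυ
  rw [← zpow_natCast, b6Red_spec, zpow_sub₀ h0, zpow_mul, zpow_natCast, hυ, one_zpow, div_one]

private theorem b6_rel (N : ℕ) [NeZero N] (α β : ZMod N) (z w : ℤ)
    (h : (N : ℤ) ∣ z * (α.val : ℤ) + w * (β.val : ℤ)) :
    (b6Red N z) • α + (b6Red N w) • β = 0 := by
  rw [nsmul_eq_mul, nsmul_eq_mul, b6Red_cast, b6Red_cast]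
  have h1 : ((z * (α.val : ℤ) + w * (β.val : ℤ) : ℤ) : ZMod N) = 0 := by
    rw [ZMod.intCast_zmod_eq_zero_iff_dvd]
    exact h
  push_cast at h1
  rw [ZMod.natCast_zmod_val, ZMod.natCast_zmod_val] at h1
  exact h1

theorem relVectors (N : ℕ) [NeZero N] (α β : ZMod N) :
    ∃ W : Fin 5 → ℕ × ℕ,
      (∀ i, (W i).1 ≤ N ∧ (W i).2 ≤ N ∧ (W i).1 • α + (W i).2 • β = 0) ∧
      ∀ (F : Type*) [Field F] [IsAlgClosed F] (υ ξ : F),
        (∀ i, υ ^ (W i).1 * ξ ^ (W i).2 = 1) →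
          υ ^ N = 1 ∧ ξ ^ N = 1 ∧ ∃ x : F, x ^ N = 1 ∧ x ^ α.val = υ ∧ x ^ β.val = ξ := by
  have hN0 : 0 < N := Nat.pos_of_ne_zero (NeZero.ne N)
  obtain ⟨a, ha⟩ : ∃ a, a = α.val := ⟨_, rfl⟩
  obtain ⟨b, hb⟩ : ∃ b, b = β.val := ⟨_, rfl⟩
  obtain ⟨g, hg⟩ : ∃ g, g = Nat.gcd (Nat.gcd a b) N := ⟨_, rfl⟩
  have hg0 : 0 < g := by
    rw [hg]
    exact Nat.gcd_pos_of_pos_right _ hN0
  have hgN : g ∣ N := hg ▸ Nat.gcd_dvd_right _ _
  have hgab : g ∣ Nat.gcd a b := hg ▸ Nat.gcd_dvd_left _ _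
  obtain ⟨a', ha'⟩ := hgab.trans (Nat.gcd_dvd_left a b)
  obtain ⟨b', hb'⟩ := hgab.trans (Nat.gcd_dvd_right a b)
  obtain ⟨M, hM⟩ := hgN
  obtain ⟨s, t, m, hst⟩ : ∃ s t m : ℤ, (g : ℤ) = s * a + t * b + m * N := by
    have h1 := Nat.gcd_eq_gcd_ab a b
    have h2 := Nat.gcd_eq_gcd_ab (Nat.gcd a b) N
    rw [← hg] at h2
    refine ⟨Nat.gcdA a b * Nat.gcdA (Nat.gcd a b) N, Nat.gcdB a b * Nat.gcdA (Nat.gcd a b) N,
      Nat.gcdB (Nat.gcd a b) N, ?_⟩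
    rw [h2, h1]
    ring
  have ha'z : (a : ℤ) = g * a' := by exact_mod_cast ha'
  have hb'z : (b : ℤ) = g * b' := by exact_mod_cast hb'
  have hMz : (N : ℤ) = g * M := by exact_mod_cast hM
  refine ⟨![(N, 0), (0, N), (b6Red N (a' * s - 1), b6Red N (a' * t)),
    (b6Red N (b' * s), b6Red N (b' * t - 1)), (b6Red N (M * s), b6Red N (M * t))], ?_, ?_⟩
  · intro i
    fin_cases i
    · refine ⟨le_refl _, Nat.zero_le _, ?_⟩
      change N • α + 0 • β = 0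
      rw [nsmul_eq_mul, ZMod.natCast_self]
      simp
    · refine ⟨Nat.zero_le _, le_refl _, ?_⟩
      change 0 • α + N • β = 0
      rw [nsmul_eq_mul N, ZMod.natCast_self]
      simp
    · refine ⟨b6Red_le _ _, b6Red_le _ _, b6_rel N α β _ _ ?_⟩
      rw [← ha, ← hb]
      refine ⟨-(a' * m), ?_⟩
      linear_combination (-(a' : ℤ)) * hst - ha'z
    · refine ⟨b6Red_le _ _, b6Red_le _ _, b6_rel N α β _ _ ?_⟩
      rw [← ha, ← hb]
      refine ⟨-(b' * m), ?_⟩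
      linear_combination (-(b' : ℤ)) * hst - hb'z
    · refine ⟨b6Red_le _ _, b6Red_le _ _, b6_rel N α β _ _ ?_⟩
      rw [← ha, ← hb]
      refine ⟨1 - M * m, ?_⟩
      linear_combination (-(M : ℤ)) * hst - hMz
  · intro F _ _ υ ξ hW
    have hυ : υ ^ N = 1 := by
      have h := hW 0
      change υ ^ N * ξ ^ 0 = 1 at h
      rwa [pow_zero, mul_one] at h
    have hξ : ξ ^ N = 1 := by
      have h := hW 1
      change υ ^ 0 * ξ ^ N = 1 at h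
      rwa [pow_zero, one_mul] at h
    have hυ0 : υ ≠ 0 := by
      rintro rfl
      rw [zero_pow (NeZero.ne N)] at hυ
      exact zero_ne_one hυ
    have hξ0 : ξ ≠ 0 := by
      rintro rfl
      rw [zero_pow (NeZero.ne N)] at hξ
      exact zero_ne_one hξ
    have h2 : υ ^ (a' * s - 1 : ℤ) * ξ ^ (a' * t : ℤ) = 1 := by
      have h := hW 2
      change υ ^ (b6Red N (a' * s - 1)) * ξ ^ (b6Red N (a' * t)) = 1 at h
      rwa [b6Red_pow N υ hυ, b6Red_pow N ξ hξ] at h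
    have h3 : υ ^ (b' * s : ℤ) * ξ ^ (b' * t - 1 : ℤ) = 1 := by
      have h := hW 3
      change υ ^ (b6Red N (b' * s)) * ξ ^ (b6Red N (b' * t - 1)) = 1 at h
      rwa [b6Red_pow N υ hυ, b6Red_pow N ξ hξ] at h
    have h4 : υ ^ (M * s : ℤ) * ξ ^ (M * t : ℤ) = 1 := by
      have h := hW 4
      change υ ^ (b6Red N (M * s)) * ξ ^ (b6Red N (M * t)) = 1 at h
      rwa [b6Red_pow N υ hυ, b6Red_pow N ξ hξ] at h
    have hη : ∀ k : ℕ, (υ ^ s * ξ ^ t) ^ k = υ ^ ((k : ℤ) * s) * ξ ^ ((k : ℤ) * t) := by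
      intro k
      rw [mul_pow, ← zpow_natCast (υ ^ s) k, ← zpow_natCast (ξ ^ t) k, ← zpow_mul, ← zpow_mul,
        mul_comm s, mul_comm t]
    have e1 : (υ ^ s * ξ ^ t) ^ a' = υ := by
      rw [hη]
      rw [zpow_sub_one₀ hυ0] at h2
      have h5 : υ ^ ((a' : ℤ) * s) * ξ ^ ((a' : ℤ) * t) =
          (υ ^ ((a' : ℤ) * s) * υ⁻¹ * ξ ^ ((a' : ℤ) * t)) * υ := by
        field_simp
      rw [h5, h2, one_mul]
    have e2 : (υ ^ s * ξ ^ t) ^ b' = ξ := by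
      rw [hη]
      rw [zpow_sub_one₀ hξ0] at h3
      have h5 : υ ^ ((b' : ℤ) * s) * ξ ^ ((b' : ℤ) * t) =
          (υ ^ ((b' : ℤ) * s) * (ξ ^ ((b' : ℤ) * t) * ξ⁻¹)) * ξ := by
        field_simp
      rw [h5, h3, one_mul]
    have e3 : (υ ^ s * ξ ^ t) ^ M = 1 := by
      rw [hη]
      exact h4
    obtain ⟨x, hx⟩ := IsAlgClosed.exists_pow_nat_eq (υ ^ s * ξ ^ t) hg0
    refine ⟨hυ, hξ, x, ?_, ?_, ?_⟩
    · rw [hM, pow_mul, hx, e3]
    · rw [← ha, ha', pow_mul, hx, e1]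
    · rw [← hb, hb', pow_mul, hx, e2]

end STri
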