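import Pool.Agent.Helper9.ST.B3
import Pool.Agent.Helper9.ST.B4
import Pool.Agent.Helper9.ST.B5
import Pool.Agent.Helper9.ST.B6

/-!
Piece B7: assembly of the upper bound.

`relPoly` (with `s = 2 n + 3`; note `1 ≤ n` because `(i,j) ≠ 0`, so `n + 4 ≤ 2 n + 3`) gives `l₀` and `h₀`.
Make it monic: `h = C (leadingCoeff h₀)⁻¹ * h₀`, one more line (`step1`).
If `natDegree h = 0` then `h = 1`, `pv β h = 1`, done.  Otherwise `d = natDegree h ≥ 1`, `d ≤ n`.
Let `Y = C (-c₂/c₁) * X + C (-c₃/c₁)`.  Lines (one `step2` each):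
 `single α 1 - pv β (Y %ₘ h) = single 0 c₁⁻¹ * f + (Y /ₘ h)(v) * pv β h`  (`Y /ₘ h` is a constant `C y`),
 `single β 1 - pv β (X %ₘ h) = 0 * f + (X /ₘ h)(v) * pv β h`  (again a constant).
Let `W` be from `relVectors`.  For each of the five `i`: `powR` for `(α, Y %ₘ h, m = (W i).1)`, `powR` for `(β, X %ₘ h, m = (W i).2)`,
`prodR` of the two: gives `single (w₁ • α + w₂ • β) 1 - pv β (G i) = 1 - pv β (G i) = pv β (1 - G i)`, with
`G i = (((Y %ₘ h)^w₁ %ₘ h) * ((X %ₘ h)^w₂ %ₘ h)) %ₘ h`; so `Q i = 1 - G i` has degree `< d`.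
Do this as a lemma for one vector and iterate five times (or induct over `Fin k`).
Lines: `(2 log₂ N + 1) 2 d` for each power (`Nat.log` is monotone, `w ≤ N`), `2 d` for the product.
Unit ideal: if `Ideal.span (insert h (range Q)) ≠ ⊤`, it is contained in a maximal ideal, or: it is principal,
generated by some `G` not a unit (`h ≠ 0`), so `G` has a root `ξ` in `AlgebraicClosure K`
(`IsAlgClosed.exists_aeval_eq_zero`), and `h(ξ) = 0`, `Q i (ξ) = 0`.  From `h(ξ) = 0`: `(P %ₘ h)(ξ) = P(ξ)`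
(`Polynomial.aeval_modByMonic_eq_self_of_root`), so `Y(ξ)^{w₁} ξ^{w₂} = 1` for all `i`, and `relVectors` gives `x` with
`x^N = 1`, `x^α = Y(ξ)`, `x^β = ξ`, so `c₁ x^α + c₂ x^β + c₃ = 0`, contradicting `hroot`.
Then `bezout` with `k = 5`.
Count: `(n+3)^2 + 1 + 2 + 5 ((4 log₂ N + 2) 2 n + 2 n) + 6 n ≤ 100 (n+1) (n + log₂ N + 1)`.
-/

namespace STri

open Polynomial

variable {K : Type*} [Field K] {N : ℕ}

/-- Products of two powers: one relation vector. -/
private theorem b7_vec {s d L : ℕ} {f : Rg K N} {l : List (Rg K N)} (hl : IsProof 2 s f l)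
    (α β : ZMod N) {h A B : K[X]} (hh : h.Monic) (hd : h.natDegree = d) (hd1 : 1 ≤ d)
    (hA : A.degree < d) (hB : B.degree < d)
    (mA : AddMonoidAlgebra.single α (1 : K) - pv β A ∈ l)
    (mB : AddMonoidAlgebra.single β (1 : K) - pv β B ∈ l) (mh : pv β h ∈ l) (hs : 2 * d ≤ s)
    (w : ℕ × ℕ) (hw1 : Nat.log 2 w.1 ≤ L) (hw2 : Nat.log 2 w.2 ≤ L)
    (hw : w.1 • α + w.2 • β = 0) :
    ∃ new : List (Rg K N), new.length ≤ (4 * L + 3) * (2 * d) ∧
      IsProof 2 s f (new ++ l) ∧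
      pv β (1 - ((A ^ w.1 %ₘ h) * (B ^ w.2 %ₘ h)) %ₘ h) ∈ new ++ l := by
  have hdeg : h.degree = (d : WithBot ℕ) := by
    rw [degree_eq_natDegree hh.ne_zero, hd]
  obtain ⟨n1, hn1, hp1, hm1⟩ := powR hl β α hh hd hd1 hA mA mh hs w.1
  obtain ⟨n2, hn2, hp2, hm2⟩ := powR hp1 β β hh hd hd1 hB (List.mem_append_right _ mB)
    (List.mem_append_right _ mh) hs w.2
  obtain ⟨n3, hn3, hp3, hm3⟩ := prodR hp2 β (w.1 • α) (w.2 • β) hh hd hd1
    (P₁ := A ^ w.1 %ₘ h) (P₂ := B ^ w.2 %ₘ h)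
    (by rw [← hdeg]; exact degree_modByMonic_lt _ hh)
    (by rw [← hdeg]; exact degree_modByMonic_lt _ hh)
    (List.mem_append_right _ hm1) hm2
    (List.mem_append_right _ (List.mem_append_right _ mh)) hs
  refine ⟨n3 ++ (n2 ++ n1), ?_, ?_, ?_⟩
  · rw [List.length_append, List.length_append]
    have e1 : (2 * Nat.log 2 w.1 + 1) * (2 * d) ≤ (2 * L + 1) * (2 * d) :=
      Nat.mul_le_mul_right _ (by omega)
    have e2 : (2 * Nat.log 2 w.2 + 1) * (2 * d) ≤ (2 * L + 1) * (2 * d) :=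
      Nat.mul_le_mul_right _ (by omega)
    have e3 : (4 * L + 3) * (2 * d) = (2 * L + 1) * (2 * d) + (2 * L + 1) * (2 * d) + 2 * d := by
      ring
    omega
  · rw [List.append_assoc, List.append_assoc]
    exact hp3
  · rw [List.append_assoc, List.append_assoc, pv_sub, pv_one, one_eq_single, ← hw]
    exact hm3

/-- A proper ideal of `K[X]` containing a nonzero polynomial has a zero. -/
private theorem b7_root {I : Ideal K[X]} (hI : I ≠ ⊤) {h : K[X]} (hh : h ≠ 0) (hmem : h ∈ I) :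
    ∃ ξ : AlgebraicClosure K, ∀ P ∈ I, aeval ξ P = 0 := by
  obtain ⟨M, hM, hIM⟩ := Ideal.exists_le_maximal I hI
  obtain ⟨g, hg⟩ := (IsPrincipalIdealRing.principal M).principal
  have hg' : M = Ideal.span {g} := hg
  have hg0 : g ≠ 0 := by
    rintro rfl
    have h1 := hIM hmem
    rw [hg', Ideal.mem_span_singleton, zero_dvd_iff] at h1
    exact hh h1
  have hgdeg : g.degree ≠ 0 := by
    intro h0
    apply hM.ne_top
    rw [hg', Ideal.span_singleton_eq_top]
    exact isUnit_iff_degree_eq_zero.2 h0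
  obtain ⟨ξ, hξ⟩ := IsAlgClosed.exists_aeval_eq_zero (AlgebraicClosure K) g hgdeg
  refine ⟨ξ, fun P hP => ?_⟩
  have h1 := hIM hP
  rw [hg', Ideal.mem_span_singleton] at h1
  obtain ⟨q, rfl⟩ := h1
  rw [map_mul, hξ, zero_mul]

private theorem b7_divC {h Y : K[X]} (hh : h.Monic) (hd1 : 1 ≤ h.natDegree)
    (hY : Y.natDegree ≤ 1) : ∃ y : K, Y /ₘ h = C y := by
  have h1 : (Y /ₘ h).natDegree = 0 := by
    rw [natDegree_divByMonic _ hh]
    omega
  exact ⟨_, eq_C_of_natDegree_eq_zero h1⟩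

private theorem b7_pv_split (β : ZMod N) {h Y : K[X]} {y : K} (hy : Y /ₘ h = C y) :
    pv β (Y %ₘ h) = pv β Y - AddMonoidAlgebra.single 0 y * pv β h := by
  have h1 := modByMonic_add_div Y h
  rw [hy] at h1
  have h2 : pv β Y = pv β (Y %ₘ h) + pv β h * AddMonoidAlgebra.single 0 y := by
    conv_lhs => rw [← h1]
    rw [pv_add, pv_mul, pv_C]
  rw [h2]
  ring

private theorem b7_count {n d L a b c e len : ℕ} (hdn : d ≤ n) (h0 : a ≤ (n + 3) ^ 2)
    (hb : b ≤ a + 3) (hc : c ≤ 5 * ((4 * L + 3) * (2 * d))) (he : e ≤ (5 + 1) * d)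
    (hl : len ≤ e + (c + b)) : len ≤ 100 * (n + 1) * (n + L + 1) := by
  have e1 : 5 * ((4 * L + 3) * (2 * d)) ≤ 5 * ((4 * L + 3) * (2 * n)) := by
    apply Nat.mul_le_mul_left
    apply Nat.mul_le_mul_left
    omega
  have e2 : 5 * ((4 * L + 3) * (2 * n)) = 40 * (L * n) + 30 * n := by ring
  have e3 : (n + 3) ^ 2 = n * n + 6 * n + 9 := by ring
  have e4 : 100 * (n + 1) * (n + L + 1) =
      100 * (n * n) + 100 * (L * n) + 200 * n + 100 * L + 100 := by ring
  rw [e4]
  omega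

theorem upper [NeZero N] {α β : ZMod N} {c₁ c₂ c₃ : K} (h1 : c₁ ≠ 0) (h2 : c₂ ≠ 0)
    (h3 : c₃ ≠ 0) {n : ℕ} (hrel : Rel N α β n)
    (hroot : ∀ x : AlgebraicClosure K, x ^ N = 1 →
      algebraMap K (AlgebraicClosure K) c₁ * x ^ α.val +
        algebraMap K (AlgebraicClosure K) c₂ * x ^ β.val +
        algebraMap K (AlgebraicClosure K) c₃ ≠ 0) :
    ∃ l : List (Rg K N), IsProof 2 (2 * n + 3) (tri N α β c₁ c₂ c₃) l ∧ (1 : Rg K N) ∈ l ∧
      l.length ≤ 100 * (n + 1) * (n + Nat.log 2 N + 1) := by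
  classical
  set f := tri N α β c₁ c₂ c₃ with hf
  have hn : 1 ≤ n := by
    obtain ⟨i, j, hij, hi, hj, -⟩ := hrel
    by_contra hn
    have hn0 : n = 0 := by omega
    rw [hn0, Nat.cast_zero, abs_nonpos_iff] at hi hj
    rcases hij with h | h
    · exact h hi
    · exact h hj
  obtain ⟨h₀, l₀, hh0, hdeg0, hpr0, hf0, hm0, hlen0⟩ :=
    relPoly (s := 2 * n + 3) h1 h2 h3 hrel (by omega)
  set u := h₀.leadingCoeff with hu
  have hu0 : u ≠ 0 := leadingCoeff_ne_zero.2 hh0
  set h : K[X] := C u⁻¹ * h₀ with hh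
  have hmon : h.Monic := by
    apply monic_C_mul_of_mul_leadingCoeff_eq_one
    rw [← hu]
    exact inv_mul_cancel₀ hu0
  have hhdeg : h.natDegree = h₀.natDegree := natDegree_C_mul (inv_ne_zero hu0)
  have hpvh : pv β h = AddMonoidAlgebra.single 0 u⁻¹ * pv β h₀ := by
    rw [hh, pv_mul, pv_C]
  set d := h.natDegree with hd
  have hdn : d ≤ n := by rw [hhdeg]; exact hdeg0
  have hnt : nterms (pv β h) ≤ d + 1 := by
    apply nterms_pv_le
    rw [degree_eq_natDegree hmon.ne_zero, ← hd]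
    exact_mod_cast Nat.lt_succ_self d
  have hpr1 : IsProof 2 (2 * n + 3) f (pv β h :: l₀) := by
    rw [hpvh]
    apply hpr0.step1 hm0
    rw [← hpvh]
    omega
  rcases Nat.eq_zero_or_pos d with hd0 | hd1
  · have h10 : h = 1 := (Monic.natDegree_eq_zero hmon).1 hd0
    refine ⟨pv β h :: l₀, hpr1, ?_, ?_⟩
    · rw [h10, pv_one]
      exact List.mem_cons_self
    · rw [List.length_cons]
      exact b7_count (d := 0) (c := 0) (e := 0) (Nat.zero_le _) hlen0 le_rfl (by omega) (by omega)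
        (by omega)
  have hdeg : h.degree = (d : WithBot ℕ) := by
    rw [degree_eq_natDegree hmon.ne_zero]
  set Y : K[X] := C (-c₂ / c₁) * X + C (-c₃ / c₁) with hY
  have hYd : Y.natDegree ≤ 1 := natDegree_linear_le
  obtain ⟨y, hy⟩ := b7_divC hmon hd1 hYd
  obtain ⟨y', hy'⟩ := b7_divC (Y := X) hmon hd1 natDegree_X_le
  have hpvY : pv β Y = AddMonoidAlgebra.single α (1 : K) - AddMonoidAlgebra.single 0 c₁⁻¹ * f := by
    have e1 : pv β (C (-c₂ / c₁) * X) = AddMonoidAlgebra.single β (-c₂ / c₁) := by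
      have := pv_mono (N := N) β (-c₂ / c₁) 1
      rwa [pow_one, one_smul] at this
    rw [hY, pv_add, e1, pv_C, hf, tri, mul_add, mul_add, AddMonoidAlgebra.single_mul_single,
      AddMonoidAlgebra.single_mul_single, AddMonoidAlgebra.single_mul_single, zero_add, zero_add,
      zero_add, inv_mul_cancel₀ h1]
    have e2 : -c₂ / c₁ = -(c₁⁻¹ * c₂) := by rw [neg_div, div_eq_inv_mul]
    have e3 : -c₃ / c₁ = -(c₁⁻¹ * c₃) := by rw [neg_div, div_eq_inv_mul]
    rw [e2, e3, AddMonoidAlgebra.single_neg, AddMonoidAlgebra.single_neg]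
    abel
  have hAdeg : (Y %ₘ h).degree < d := by rw [← hdeg]; exact degree_modByMonic_lt _ hmon
  have hBdeg : ((X : K[X]) %ₘ h).degree < d := by rw [← hdeg]; exact degree_modByMonic_lt _ hmon
  -- the two lines
  have hlA : AddMonoidAlgebra.single α (1 : K) - pv β (Y %ₘ h) =
      AddMonoidAlgebra.single 0 c₁⁻¹ * f + AddMonoidAlgebra.single 0 y * pv β h := by
    rw [b7_pv_split β hy, hpvY]
    ring
  have hpvX : pv β (X : K[X]) = AddMonoidAlgebra.single β (1 : K) := by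
    have := pv_mono (N := N) β (1 : K) 1
    rwa [pow_one, one_smul, C_1, one_mul] at this
  have hlB : AddMonoidAlgebra.single β (1 : K) - pv β ((X : K[X]) %ₘ h) =
      AddMonoidAlgebra.single 0 (0 : K) * f + AddMonoidAlgebra.single 0 y' * pv β h := by
    rw [b7_pv_split β hy', hpvX, AddMonoidAlgebra.single_zero]
    ring
  have hntA : nterms (AddMonoidAlgebra.single α (1 : K) - pv β (Y %ₘ h)) ≤ 2 * n + 3 := by
    have e1 := nterms_sub_le (AddMonoidAlgebra.single α (1 : K)) (pv β (Y %ₘ h))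
    have e2 := nterms_single_le α (1 : K)
    have e3 := nterms_pv_le β (Y %ₘ h) hAdeg
    omega
  have hntB : nterms (AddMonoidAlgebra.single β (1 : K) - pv β ((X : K[X]) %ₘ h)) ≤
      2 * n + 3 := by
    have e1 := nterms_sub_le (AddMonoidAlgebra.single β (1 : K)) (pv β ((X : K[X]) %ₘ h))
    have e2 := nterms_single_le β (1 : K)
    have e3 := nterms_pv_le β ((X : K[X]) %ₘ h) hBdeg
    omega
  have hpr2 : IsProof 2 (2 * n + 3) f
      ((AddMonoidAlgebra.single α (1 : K) - pv β (Y %ₘ h)) :: pv β h :: l₀) := by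
    have e := hpr1.step2 (List.mem_cons_of_mem _ hf0) List.mem_cons_self 0 0 c₁⁻¹ y
      (by rw [← hlA]; exact hntA)
    rwa [← hlA] at e
  have hpr3 : IsProof 2 (2 * n + 3) f
      ((AddMonoidAlgebra.single β (1 : K) - pv β ((X : K[X]) %ₘ h)) ::
        (AddMonoidAlgebra.single α (1 : K) - pv β (Y %ₘ h)) :: pv β h :: l₀) := by
    have e := hpr2.step2 (List.mem_cons_of_mem _ (List.mem_cons_of_mem _ hf0))
      (List.mem_cons_of_mem _ List.mem_cons_self) 0 0 (0 : K) y' (by rw [← hlB]; exact hntB)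
    rwa [← hlB] at e
  set l : List (Rg K N) := (AddMonoidAlgebra.single β (1 : K) - pv β ((X : K[X]) %ₘ h)) ::
        (AddMonoidAlgebra.single α (1 : K) - pv β (Y %ₘ h)) :: pv β h :: l₀ with hl
  have mB : AddMonoidAlgebra.single β (1 : K) - pv β ((X : K[X]) %ₘ h) ∈ l :=
    List.mem_cons_self
  have mA : AddMonoidAlgebra.single α (1 : K) - pv β (Y %ₘ h) ∈ l :=
    List.mem_cons_of_mem _ List.mem_cons_self
  have mh : pv β h ∈ l :=
    List.mem_cons_of_mem _ (List.mem_cons_of_mem _ List.mem_cons_self)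
  obtain ⟨W, hW1, hW2⟩ := relVectors N α β
  let Q : Fin 5 → K[X] := fun i =>
    1 - (((Y %ₘ h) ^ (W i).1 %ₘ h) * (((X : K[X]) %ₘ h) ^ (W i).2 %ₘ h)) %ₘ h
  have hQdeg : ∀ i, (Q i).degree < d := by
    intro i
    refine lt_of_le_of_lt (degree_sub_le _ _) (max_lt ?_ ?_)
    · rw [degree_one]
      exact_mod_cast hd1
    · rw [← hdeg]
      exact degree_modByMonic_lt _ hmon
  have key : ∀ F : Finset (Fin 5), ∃ new : List (Rg K N),
      new.length ≤ F.card * ((4 * Nat.log 2 N + 3) * (2 * d)) ∧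
      IsProof 2 (2 * n + 3) f (new ++ l) ∧ ∀ i ∈ F, pv β (Q i) ∈ new ++ l := by
    intro F
    induction F using Finset.induction_on with
    | empty => exact ⟨[], by simp, hpr3, by simp⟩
    | insert i F hi ih =>
      obtain ⟨new, hlen, hpr, hmem⟩ := ih
      obtain ⟨new', hlen', hpr', hmem'⟩ := b7_vec (L := Nat.log 2 N) hpr α β hmon rfl hd1 hAdeg
        hBdeg (List.mem_append_right _ mA) (List.mem_append_right _ mB)
        (List.mem_append_right _ mh) (by omega) (W i) (Nat.log_mono_right (hW1 i).1)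
        (Nat.log_mono_right (hW1 i).2.1) (hW1 i).2.2
      refine ⟨new' ++ new, ?_, ?_, ?_⟩
      · rw [List.length_append, Finset.card_insert_of_notMem hi, Nat.succ_mul, add_comm]
        exact Nat.add_le_add hlen hlen'
      · rw [List.append_assoc]
        exact hpr'
      · intro j hj
        rw [List.append_assoc]
        rcases Finset.mem_insert.1 hj with rfl | hj
        · exact hmem'
        · exact List.mem_append_right _ (hmem j hj)
  obtain ⟨new, hlen, hpr, hmem⟩ := key Finset.univ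
  have hspan : Ideal.span (insert h (Set.range Q)) = ⊤ := by
    by_contra hI
    obtain ⟨ξ, hξ⟩ := b7_root hI hmon.ne_zero (Ideal.subset_span (Set.mem_insert _ _))
    have hξh : aeval ξ h = 0 := hξ h (Ideal.subset_span (Set.mem_insert _ _))
    have hmod : ∀ P : K[X], aeval ξ (P %ₘ h) = aeval ξ P := fun P =>
      aeval_modByMonic_eq_self_of_root hξh
    have hQ0 : ∀ i, (aeval ξ Y) ^ (W i).1 * ξ ^ (W i).2 = 1 := by
      intro i
      have e := hξ (Q i) (Ideal.subset_span (Set.mem_insert_of_mem _ ⟨i, rfl⟩))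
      have e' : aeval ξ (Q i) = 1 - (aeval ξ Y) ^ (W i).1 * ξ ^ (W i).2 := by
        show aeval ξ (1 - (((Y %ₘ h) ^ (W i).1 %ₘ h) * (((X : K[X]) %ₘ h) ^ (W i).2 %ₘ h)) %ₘ h) =
          _
        rw [map_sub, map_one, hmod, map_mul, hmod, hmod, map_pow, map_pow, hmod, hmod, aeval_X]
      rw [e'] at e
      exact (sub_eq_zero.1 e).symm
    obtain ⟨-, -, x, hx1, hx2, hx3⟩ := hW2 (AlgebraicClosure K) _ _ hQ0
    apply hroot x hx1
    rw [hx2, hx3, hY]
    have hc1 : algebraMap K (AlgebraicClosure K) c₁ ≠ 0 := by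
      rw [Ne, FaithfulSMul.algebraMap_eq_zero_iff]
      exact h1
    simp only [map_add, map_mul, aeval_C, aeval_X, map_div₀, map_neg]
    field_simp
    ring
  obtain ⟨new', hlen', hpr', hmem'⟩ := bezout hpr β hmon rfl hd1
    (List.mem_append_right _ mh) Q hQdeg (fun i => hmem i (Finset.mem_univ i)) hspan (by omega)
  refine ⟨new' ++ (new ++ l), hpr', hmem', ?_⟩
  rw [Finset.card_univ, Fintype.card_fin] at hlen
  refine b7_count (L := Nat.log 2 N) hdn hlen0 (b := l.length) ?_ hlen hlen' ?_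
  · rw [hl]
    simp only [List.length_cons]
    omega
  · rw [List.length_append, List.length_append]

end STri
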