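import Pool.Agent.Helper9.ST.Defs

/-!
Piece D1: hard examples, pigeonhole bound, soundness, monotonicity of `Rel`.

`hardExample`: `x ↦ x^m - x` on `ZMod p` has the value `0` at `0` and at `1`, so it is not injective, so (finite) not
surjective: some `-b` is not a value; `b ≠ 0` since `0` is a value.
If `i m + j = 0` modulo `p - 1` with `|i|, |j| ≤ m - 1` then `|i m + j| ≤ m^2 - 1 < p - 1`, so `i m + j = 0` in `ℤ`, so
`m ∣ j`, `j = 0`, `i = 0`.

`rel_sqrt`: pigeonhole on `(i, j) ∈ {0..√N}²` (`(√N+1)^2 > N`, `Nat.lt_succ_sqrt`) for the map `i α + j β`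
(`Finset.exists_ne_map_eq_of_card_lt_of_maps_to`); take the difference.

`sound`: evaluation at `x` (`x ≠ 0`, `x^N = 1`) is a ring homomorphism `Rg K N → K` (for instance
`AddMonoidAlgebra.lift`, or define `φ P = P.coeff.sum fun a h => h * x ^ a.val` and prove it additive and
`φ (single a c * P) = c * x^a.val * φ P`, which is enough); every line is mapped to `0`.
-/

namespace STri

open Polynomial

theorem hardExample (p : ℕ) [Fact p.Prime] (m : ℕ) (hm : 2 ≤ m) (hmp : m ^ 2 ≤ p - 1) :
    ∃ b : ZMod p, b ≠ 0 ∧ (∀ x : ZMod p, x ^ m - x + b ≠ 0) ∧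
      ¬ Rel (p - 1) (m : ZMod (p - 1)) 1 (m - 1) := by
  have h0 : (0 : ZMod p) ^ m - 0 = 0 := by
    rw [zero_pow (by omega), sub_zero]
  have hni : ¬ Function.Injective fun x : ZMod p => x ^ m - x := by
    intro h
    have h1 : (0 : ZMod p) = 1 := h (by simp only [h0, one_pow, sub_self])
    exact zero_ne_one h1
  have hns : ¬ Function.Surjective fun x : ZMod p => x ^ m - x := fun h =>
    hni (Finite.injective_iff_surjective.2 h)
  rw [Function.Surjective] at hns
  push Not at hns
  obtain ⟨y, hy⟩ := hns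
  refine ⟨-y, ?_, fun x hx => hy x ?_, ?_⟩
  · intro h
    rw [neg_eq_zero] at h
    exact hy 0 (by rw [h]; exact h0)
  · have h1 : x ^ m - x = y := by linear_combination hx
    exact h1
  · rintro ⟨i, j, hij, hi, hj, -, h⟩
    have h1 : ((i * m + j : ℤ) : ZMod (p - 1)) = 0 := by
      push_cast
      rw [mul_one] at h
      exact h
    rw [ZMod.intCast_zmod_eq_zero_iff_dvd] at h1
    have hm1 : ((m - 1 : ℕ) : ℤ) = (m : ℤ) - 1 := by
      rw [Nat.cast_sub (by omega)]
      simp
    rw [hm1] at hi hj
    have hmz : (2 : ℤ) ≤ m := by exact_mod_cast hm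
    have hN : (m : ℤ) ^ 2 ≤ ((p - 1 : ℕ) : ℤ) := by exact_mod_cast hmp
    have h2 : |i * (m : ℤ) + j| < ((p - 1 : ℕ) : ℤ) := by
      have h3 : |i * (m : ℤ) + j| ≤ |i| * m + |j| := by
        calc |i * (m : ℤ) + j| ≤ |i * (m : ℤ)| + |j| := abs_add_le _ _
          _ = |i| * m + |j| := by rw [abs_mul, abs_of_nonneg (by omega : (0 : ℤ) ≤ m)]
      have h4 : |i| * (m : ℤ) ≤ ((m : ℤ) - 1) * m :=
        mul_le_mul_of_nonneg_right hi (by omega)
      nlinarith
    have h3 : i * (m : ℤ) + j = 0 := by
      apply Int.eq_zero_of_abs_lt_dvd h1 h2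
    have h4 : i = 0 := by
      by_contra hne
      have h5 : 1 ≤ |i| := Int.one_le_abs hne
      have h6 : |j| = |i| * m := by
        have h7 : j = -(i * (m : ℤ)) := by linear_combination h3
        rw [h7, abs_neg, abs_mul, abs_of_nonneg (by omega : (0 : ℤ) ≤ m)]
      nlinarith
    rw [h4] at h3 hij
    rcases hij with h5 | h5
    · exact h5 rfl
    · exact h5 (by simpa using h3)

theorem rel_sqrt (N : ℕ) [NeZero N] (α β : ZMod N) : Rel N α β (2 * Nat.sqrt N) := by
  classical
  set s := Nat.sqrt N with hs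
  have hcard : (Finset.univ : Finset (ZMod N)).card <
      (Finset.range (s + 1) ×ˢ Finset.range (s + 1)).card := by
    rw [Finset.card_univ, ZMod.card, Finset.card_product, Finset.card_range]
    exact Nat.lt_succ_sqrt N
  obtain ⟨x, hx, y, hy, hne, he⟩ := Finset.exists_ne_map_eq_of_card_lt_of_maps_to hcard
    (f := fun z : ℕ × ℕ => (z.1 : ZMod N) * α + (z.2 : ZMod N) * β)
    (fun _ _ => Finset.mem_coe.2 (Finset.mem_univ _))
  rw [Finset.mem_product, Finset.mem_range, Finset.mem_range] at hx hy
  refine ⟨(x.1 : ℤ) - y.1, (x.2 : ℤ) - y.2, ?_, ?_, ?_, ?_, ?_⟩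
  · by_contra h
    push Not at h
    apply hne
    apply Prod.ext
    · have := h.1
      omega
    · have := h.2
      omega
  · rw [abs_le]
    constructor <;> push_cast <;> omega
  · rw [abs_le]
    constructor <;> push_cast <;> omega
  · rw [abs_le]
    constructor <;> push_cast <;> omega
  · push_cast
    linear_combination he

theorem Rel.mono {N : ℕ} {α β : ZMod N} {n m : ℕ} (h : Rel N α β n) (hnm : n ≤ m) :
    Rel N α β m := by
  obtain ⟨i, j, h0, h1, h2, h3, h4⟩ := h
  have h5 : (n : ℤ) ≤ m := by exact_mod_cast hnm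
  exact ⟨i, j, h0, h1.trans h5, h2.trans h5, h3.trans h5, h4⟩

private lemma pow_mod_aux {K : Type*} [Field K] {N : ℕ} (x : K) (hx : x ^ N = 1) (k : ℕ) :
    x ^ (k % N) = x ^ k := by
  conv_rhs => rw [← Nat.mod_add_div k N, pow_add, pow_mul, hx, one_pow, mul_one]

/-- Evaluation at an `N`-th root of unity. -/
private noncomputable def evalHom {K : Type*} [Field K] {N : ℕ} [NeZero N] (x : K)
    (hx : x ^ N = 1) : Rg K N →ₐ[K] K :=
  AddMonoidAlgebra.lift K K (ZMod N)
    { toFun := fun a => x ^ (Multiplicative.toAdd a).val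
      map_one' := by simp
      map_mul' := fun a b => by
        rw [toAdd_mul, ZMod.val_add, pow_mod_aux x hx, pow_add] }

private lemma evalHom_apply {K : Type*} [Field K] {N : ℕ} [NeZero N] (x : K)
    (hx : x ^ N = 1) (P : Rg K N) :
    evalHom x hx P = P.coeff.sum fun a h => h * x ^ a.val := by
  rw [evalHom, AddMonoidAlgebra.lift_apply]
  rfl

theorem sound {K : Type*} [Field K] {N : ℕ} [NeZero N] {r s : ℕ} {f : Rg K N}
    {l : List (Rg K N)} (hl : IsProof r s f l) (x : K) (hx : x ^ N = 1)
    (hf : (f.coeff.sum fun a h => h * x ^ a.val) = 0) : (1 : Rg K N) ∉ l := by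
  have key : ∀ Q ∈ l, evalHom x hx Q = 0 := by
    induction hl with
    | nil => intro Q hQ; simp at hQ
    | line h1 h2 h3 ih =>
      intro P hP
      rcases List.mem_cons.1 hP with rfl | hP
      · rcases h2 with rfl | ⟨t, -, ht, rfl⟩
        · rw [evalHom_apply, hf]
        · rw [map_list_sum, List.map_map]
          apply List.sum_eq_zero
          intro y hy
          obtain ⟨z, hz, rfl⟩ := List.mem_map.1 hy
          rw [Function.comp_apply, map_mul, ih _ (ht z hz), mul_zero]
      · exact ih P hP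
  intro h
  have := key 1 h
  rw [map_one] at this
  exact one_ne_zero this

/-- For `K` finite with `q` elements the hypothesis of the upper bound follows from the absence of roots in
`K`: an `x` in the algebraic closure with `x^(q-1) = 1` is in `K` (`X^(q-1) - 1` splits in `K` with the `q - 1`
nonzero elements as roots; `FiniteField.X_pow_card_sub_X_...`, or compare the number of roots). -/
theorem roots_closure {K : Type*} [Field K] [Fintype K] (x : AlgebraicClosure K)
    (hx : x ^ (Fintype.card K - 1) = 1) :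
    ∃ y : K, y ≠ 0 ∧ algebraMap K (AlgebraicClosure K) y = x := by
  classical
  have hq : 1 < Fintype.card K := Fintype.one_lt_card
  have hdeg := FiniteField.X_pow_card_sub_X_natDegree_eq K hq
  have hmon : (X ^ Fintype.card K - X : K[X]).Monic := by
    apply Polynomial.monic_X_pow_sub
    rw [degree_X]
    exact_mod_cast hq
  have hprod : (X ^ Fintype.card K - X : K[X]) = ∏ a : K, (X - C a) := by
    have h1 := Polynomial.prod_multiset_X_sub_C_of_monic_of_roots_card_eq hmon (by
      rw [FiniteField.roots_X_pow_card_sub_X, ← Finset.card_def, Finset.card_univ, hdeg])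
    rw [FiniteField.roots_X_pow_card_sub_X] at h1
    exact h1.symm
  have hx0 : x ≠ 0 := by
    rintro rfl
    rw [zero_pow (by omega)] at hx
    exact zero_ne_one hx
  have h2 : aeval x (X ^ Fintype.card K - X : K[X]) = 0 := by
    rw [map_sub, map_pow, aeval_X]
    have h3 : x ^ Fintype.card K = x ^ (Fintype.card K - 1) * x := by
      rw [← pow_succ]
      congr 1
      omega
    rw [h3, hx, one_mul, sub_self]
  rw [hprod, map_prod, Finset.prod_eq_zero_iff] at h2
  obtain ⟨a, -, ha⟩ := h2
  rw [map_sub, aeval_X, aeval_C, sub_eq_zero] at ha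
  refine ⟨a, ?_, ha.symm⟩
  rintro rfl
  rw [map_zero] at ha
  exact hx0 ha

end STri
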