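import Pool.Agent.Helper9.ST.Defs

/-!
Piece MG: merging of pieces until their images have disjoint supports.

PROOF.  Let `τ w H = H.mapDomain (· + w)` (translation; `Finsupp.embDomain` or `mapDomain` by the
injection).  Facts, to be proved first:
(1) `ev κ c (τ w H) = (κ (X + c))^w.1 X^w.2 * ev κ c H` (so vanishing is preserved; needs `κ ≠ 0` so that
    `zpow_add₀` applies) and `ev` is additive;
(2) `img α β ⟨g, τ w H, D⟩ = img α β ⟨g + pr α β w, H, D⟩` since `pr` is additive, and `img` is additive in `H`;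
(3) support of `τ w H` is the translate, so `InTri D` is preserved;
(4) if `InTri D S`, `InTri D' S'` and `S ∩ S' ≠ ∅` then `InTri (D + D') (S ∪ S')`
    (take the minima of `i₀, i₀'` and of `j₀, j₀'`; `omega` after `rcases le_total`).
MERGE STEP: if `¬ Disjoint (ims α β p) (ims α β q)` then there are `z ∈ p.H.support`, `w ∈ q.H.support` with
`p.g + pr z = q.g + pr w`; put `r = ⟨p.g, p.H + τ (z - w) q.H, p.D + q.D⟩`.  Then
`img r = img p + img q`, `ev r.H = 0`, `InTri (p.D + q.D) r.H.support`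
(the support is contained in the union, both sets contain `z`; `Finsupp.support_add`; `InTri` is monotone
under subsets).
INSERTION: by strong induction on the length of `L'` : if `L'` is pairwise disjoint (all vanishing,
in triangles) and `p` is a piece, then there is a good pairwise disjoint list with image sum
`img p + sum of L'` and `D`-sum `≤ p.D + sum`.  If `p` is disjoint from all members of `L'`, cons it.
Otherwise choose `q ∈ L'` meeting `p`, merge `p, q` to `r` and insert `r` in `L'.erase q` (or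
write `L' ~ q :: L''` by `List.perm_cons_erase` and use `List.Perm` invariance of `Pairwise`, for the
symmetric relation, and of `sum`).  Then induct over `L`.
-/

namespace STri

open Polynomial

section

variable {K : Type*} [Field K] {N : ℕ}

private noncomputable def mgT (w : ℤ × ℤ) (H : ℤ × ℤ →₀ K) : ℤ × ℤ →₀ K :=
  H.mapDomain (fun z => z + w)

private theorem mg_ev_add (κ c : K) (H H' : ℤ × ℤ →₀ K) :
    ev κ c (H + H') = ev κ c H + ev κ c H' := by
  unfold ev
  refine Finsupp.sum_add_index' (fun z => ?_) (fun z a b => ?_)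
  · rw [map_zero, zero_mul, zero_mul]
  · rw [map_add, add_mul, add_mul]

private theorem mg_ne (κ c : K) (hκ : κ ≠ 0) :
    (RatFunc.C κ * (RatFunc.X + RatFunc.C c) : RatFunc K) ≠ 0 := by
  have h1 : (RatFunc.X + RatFunc.C c : RatFunc K) = algebraMap K[X] (RatFunc K) (X + C c) := by
    rw [map_add, RatFunc.algebraMap_X, RatFunc.algebraMap_C]
  refine mul_ne_zero ?_ ?_
  · exact (_root_.map_ne_zero RatFunc.C).2 hκ
  · rw [h1]
    exact (RatFunc.algebraMap_ne_zero (X_add_C_ne_zero c))

private theorem mg_ev_T (κ c : K) (hκ : κ ≠ 0) (w : ℤ × ℤ) (H : ℤ × ℤ →₀ K) :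
    ev κ c (mgT w H) = (RatFunc.C κ * (RatFunc.X + RatFunc.C c)) ^ w.1 *
      RatFunc.X ^ w.2 * ev κ c H := by
  unfold ev mgT
  rw [Finsupp.sum_mapDomain_index (fun z => by rw [map_zero, zero_mul, zero_mul])
    (fun z a b => by rw [map_add, add_mul, add_mul]), Finsupp.mul_sum]
  refine Finsupp.sum_congr fun z _ => ?_
  rw [Prod.fst_add, Prod.snd_add, zpow_add₀ (mg_ne κ c hκ), zpow_add₀ RatFunc.X_ne_zero]
  ring

private theorem mg_pr_add (α β : ZMod N) (z w : ℤ × ℤ) :
    pr α β (z + w) = pr α β z + pr α β w := by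
  unfold pr
  rw [Prod.fst_add, Prod.snd_add, Int.cast_add, Int.cast_add]
  ring

private theorem mg_pr_sub (α β : ZMod N) (z w : ℤ × ℤ) :
    pr α β (z - w) = pr α β z - pr α β w := by
  unfold pr
  rw [Prod.fst_sub, Prod.snd_sub, Int.cast_sub, Int.cast_sub]
  ring

private theorem mg_img_add (α β g : ZMod N) (H H' : ℤ × ℤ →₀ K) (D D₁ D₂ : ℕ) :
    img α β ⟨g, H + H', D⟩ = img α β ⟨g, H, D₁⟩ + img α β ⟨g, H', D₂⟩ := by
  unfold img
  refine Finsupp.sum_add_index' (fun z => ?_) (fun z a b => ?_)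
  · exact AddMonoidAlgebra.single_zero _
  · exact AddMonoidAlgebra.single_add _ _ _

private theorem mg_img_T (α β g : ZMod N) (w : ℤ × ℤ) (H : ℤ × ℤ →₀ K) (D D' : ℕ) :
    img α β ⟨g, mgT w H, D⟩ = img α β ⟨g + pr α β w, H, D'⟩ := by
  unfold img mgT
  rw [Finsupp.sum_mapDomain_index (fun z => AddMonoidAlgebra.single_zero _)
    (fun z a b => AddMonoidAlgebra.single_add _ _ _)]
  refine Finsupp.sum_congr fun z _ => ?_
  rw [mg_pr_add]
  congr 1
  ring

private theorem mg_mono {D : ℕ} {S S' : Finset (ℤ × ℤ)} (h : S ⊆ S') (h' : InTri D S') :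
    InTri D S := by
  obtain ⟨i, j, h'⟩ := h'
  exact ⟨i, j, fun z hz => h' z (h hz)⟩

private theorem mg_shift {D : ℕ} {S : Finset (ℤ × ℤ)} (w : ℤ × ℤ) (h : InTri D S) :
    InTri D (S.image (fun z => z + w)) := by
  obtain ⟨i, j, h⟩ := h
  refine ⟨i + w.1, j + w.2, fun z hz => ?_⟩
  obtain ⟨y, hy, rfl⟩ := Finset.mem_image.1 hz
  have := h y hy
  rw [Prod.fst_add, Prod.snd_add]
  omega

private theorem mg_union {D D' : ℕ} {S S' : Finset (ℤ × ℤ)} (h : InTri D S) (h' : InTri D' S')
    (z : ℤ × ℤ) (hz : z ∈ S) (hz' : z ∈ S') : InTri (D + D') (S ∪ S') := by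
  obtain ⟨i, j, h⟩ := h
  obtain ⟨i', j', h'⟩ := h'
  refine ⟨min i i', min j j', fun y hy => ?_⟩
  have h1 := h z hz
  have h2 := h' z hz'
  push_cast
  rcases Finset.mem_union.1 hy with hy | hy
  · have h3 := h y hy
    omega
  · have h3 := h' y hy
    omega

/-- A good piece. -/
private def MGood (κ c : K) (p : Pc K N) : Prop := ev κ c p.H = 0 ∧ InTri p.D p.H.support

private theorem mg_step (α β : ZMod N) (κ c : K) (hκ : κ ≠ 0) (p q : Pc K N)
    (hp : MGood κ c p) (hq : MGood κ c q) (h : ¬ Disjoint (ims α β p) (ims α β q)) :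
    ∃ r : Pc K N, MGood κ c r ∧ r.D = p.D + q.D ∧ img α β r = img α β p + img α β q := by
  classical
  rw [Finset.not_disjoint_iff] at h
  obtain ⟨a, ha1, ha2⟩ := h
  unfold ims at ha1 ha2
  obtain ⟨z, hz, hz'⟩ := Finset.mem_image.1 ha1
  obtain ⟨w, hw, hw'⟩ := Finset.mem_image.1 ha2
  refine ⟨⟨p.g, p.H + mgT (z - w) q.H, p.D + q.D⟩, ⟨?_, ?_⟩, rfl, ?_⟩
  · show ev κ c (p.H + mgT (z - w) q.H) = 0
    rw [mg_ev_add, mg_ev_T κ c hκ, hp.1, hq.1, mul_zero, add_zero]
  · show InTri (p.D + q.D) (p.H + mgT (z - w) q.H).support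
    refine mg_mono (Finsupp.support_add.trans (Finset.union_subset_union (Finset.Subset.refl _)
      Finsupp.mapDomain_support)) (mg_union hp.2 (mg_shift (z - w) hq.2) z hz ?_)
    refine Finset.mem_image.2 ⟨w, hw, ?_⟩
    exact add_sub_cancel w z
  · rw [mg_img_add α β p.g p.H _ _ p.D q.D, mg_img_T α β p.g (z - w) q.H q.D q.D, mg_pr_sub]
    congr 2
    have : p.g + (pr α β z - pr α β w) = q.g := by
      rw [← add_sub_assoc, hz', ← hw', add_sub_cancel_right]
    rw [this]

private theorem mg_insert (α β : ZMod N) (κ c : K) (hκ : κ ≠ 0) :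
    ∀ (n : ℕ) (L' : List (Pc K N)) (p : Pc K N), L'.length = n → MGood κ c p →
      (∀ q ∈ L', MGood κ c q) →
      L'.Pairwise (fun p q => Disjoint (ims α β p) (ims α β q)) →
      ∃ M : List (Pc K N), (∀ q ∈ M, MGood κ c q) ∧
        (M.map Pc.D).sum ≤ p.D + (L'.map Pc.D).sum ∧
        (M.map (img α β)).sum = img α β p + (L'.map (img α β)).sum ∧
        M.Pairwise (fun p q => Disjoint (ims α β p) (ims α β q)) := by
  classical
  intro n
  induction n with
  | zero =>
    intro L' p hn hp hL hd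
    obtain rfl := List.length_eq_zero_iff.1 hn
    refine ⟨[p], ?_, ?_, ?_, ?_⟩
    · intro q hq
      rw [List.mem_singleton.1 hq]
      exact hp
    · simp
    · simp
    · exact List.pairwise_singleton _ _
  | succ n ih =>
    intro L' p hn hp hL hd
    by_cases hall : ∀ q ∈ L', Disjoint (ims α β p) (ims α β q)
    · refine ⟨p :: L', ?_, ?_, ?_, ?_⟩
      · intro q hq
        rcases List.mem_cons.1 hq with rfl | hq
        · exact hp
        · exact hL q hq
      · simp
      · simp
      · exact List.pairwise_cons.2 ⟨hall, hd⟩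
    · push Not at hall
      obtain ⟨q, hq, hqd⟩ := hall
      obtain ⟨A, B, rfl⟩ := List.append_of_mem hq
      obtain ⟨r, hr, hrD, hri⟩ := mg_step α β κ c hκ p q hp (hL q hq) hqd
      have hperm : (A ++ q :: B).Perm (q :: (A ++ B)) := List.perm_middle
      have hsub : (A ++ B).Sublist (A ++ q :: B) :=
        List.Sublist.append (List.Sublist.refl A) (List.sublist_cons_self q B)
      obtain ⟨M, hM1, hM2, hM3, hM4⟩ := ih (A ++ B) r (by
          have := hperm.length_eq
          rw [List.length_cons] at this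
          omega) hr (fun x hx => hL x (hsub.subset hx)) (hd.sublist hsub)
      have e1 : ((A ++ q :: B).map Pc.D).sum = q.D + ((A ++ B).map Pc.D).sum := by
        rw [(hperm.map Pc.D).sum_eq, List.map_cons, List.sum_cons]
      have e2 : ((A ++ q :: B).map (img α β)).sum =
          img α β q + ((A ++ B).map (img α β)).sum := by
        rw [(hperm.map (img α β)).sum_eq, List.map_cons, List.sum_cons]
      refine ⟨M, hM1, ?_, ?_, hM4⟩
      · rw [e1]
        omega
      · rw [e2, hM3, hri, add_assoc]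

end

theorem merge {K : Type*} [Field K] {N : ℕ} (α β : ZMod N) (κ c : K) (hκ : κ ≠ 0)
    (L : List (Pc K N)) (hL : ∀ p ∈ L, ev κ c p.H = 0 ∧ InTri p.D p.H.support) :
    ∃ L' : List (Pc K N), (∀ p ∈ L', ev κ c p.H = 0 ∧ InTri p.D p.H.support) ∧
      (L'.map Pc.D).sum ≤ (L.map Pc.D).sum ∧
      (L'.map (img α β)).sum = (L.map (img α β)).sum ∧
      L'.Pairwise (fun p q => Disjoint (ims α β p) (ims α β q)) := by
  induction L with
  | nil =>
    refine ⟨[], ?_, le_rfl, rfl, List.Pairwise.nil⟩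
    intro p hp
    exact absurd hp List.not_mem_nil
  | cons p L ih =>
    obtain ⟨L', h1, h2, h3, h4⟩ := ih (fun q hq => hL q (List.mem_cons_of_mem _ hq))
    obtain ⟨M, hM1, hM2, hM3, hM4⟩ := mg_insert α β κ c hκ L'.length L' p rfl
      (hL p List.mem_cons_self) h1 h4
    refine ⟨M, hM1, ?_, ?_, hM4⟩
    · rw [List.map_cons, List.sum_cons]
      omega
    · rw [hM3, h3, List.map_cons, List.sum_cons]

end STri
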