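import Pool.Agent.Helper9.ST.Defs

/-!
Piece B1: basic facts on `nterms`, `pv` and derivations, and the accumulation lemma `addMul`.

Hints: `nterms` is the cardinality of a `Finsupp` support (`Finsupp.support_add`,
`AddMonoidAlgebra.coeff_add`, `coeff_single_mul_apply` : the support of `single a c * P` is contained in the translate of
the support of `P`).  `pv β` is the algebra map `Polynomial.aeval (single β 1)`;
`(single β 1)^k = single (k • β) 1` (`AddMonoidAlgebra.single_pow`).
`nterms_pv_le`: `P = ∑_{i<d} C (P.coeff i) * X^i`.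
`addMul`: by induction on `j ≤ k` derive the line `A + pv β (tr P j) * B`, where `tr P j` is the truncation; the
step from `j` to `j+1` is  `1 * (A + pv β (tr P j) * B) + single (j • β) (P.coeff j) * B`
(`step2`).  `A` itself is in `l` (`tr P 0 = 0`), and `tr P k = P`.
-/

namespace STri

open Polynomial

variable {K : Type*} [Field K] {N : ℕ}

/-- truncation of a polynomial to degrees `< j` -/
noncomputable def tr (P : K[X]) (j : ℕ) : K[X] := ∑ i ∈ Finset.range j, C (P.coeff i) * X ^ i

theorem nterms_zero : nterms (0 : Rg K N) = 0 := by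
  unfold nterms
  rw [AddMonoidAlgebra.coeff_zero, Finsupp.support_zero, Finset.card_empty]

theorem nterms_add_le (P Q : Rg K N) : nterms (P + Q) ≤ nterms P + nterms Q := by
  classical
  unfold nterms
  rw [AddMonoidAlgebra.coeff_add]
  exact (Finset.card_le_card Finsupp.support_add).trans (Finset.card_union_le _ _)

theorem nterms_neg (P : Rg K N) : nterms (-P) = nterms P := by
  unfold nterms
  rw [AddMonoidAlgebra.coeff_neg, Finsupp.support_neg]

theorem nterms_sub_le (P Q : Rg K N) : nterms (P - Q) ≤ nterms P + nterms Q := by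
  rw [sub_eq_add_neg, ← nterms_neg Q]
  exact nterms_add_le P (-Q)

theorem nterms_single_le (a : ZMod N) (c : K) : nterms (AddMonoidAlgebra.single a c : Rg K N) ≤ 1 := by
  unfold nterms
  rw [AddMonoidAlgebra.coeff_single]
  exact (Finset.card_le_card Finsupp.support_single_subset).trans (Finset.card_singleton a).le

theorem nterms_single_mul_le (a : ZMod N) (c : K) (P : Rg K N) :
    nterms (AddMonoidAlgebra.single a c * P) ≤ nterms P := by
  classical
  unfold nterms
  have h : (AddMonoidAlgebra.single a c * P).coeff.support ⊆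
      P.coeff.support.image fun x => a + x := by
    intro x hx
    rw [Finsupp.mem_support_iff, AddMonoidAlgebra.coeff_single_mul_apply] at hx
    rw [Finset.mem_image]
    refine ⟨-a + x, ?_, by ring⟩
    rw [Finsupp.mem_support_iff]
    exact right_ne_zero_of_mul hx
  exact (Finset.card_le_card h).trans Finset.card_image_le

theorem pv_add (β : ZMod N) (P Q : K[X]) : pv β (P + Q) = pv β P + pv β Q :=
  map_add _ P Q

theorem pv_sub (β : ZMod N) (P Q : K[X]) : pv β (P - Q) = pv β P - pv β Q :=
  map_sub _ P Q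

theorem pv_mul (β : ZMod N) (P Q : K[X]) : pv β (P * Q) = pv β P * pv β Q :=
  map_mul _ P Q

theorem pv_one (β : ZMod N) : pv β (1 : K[X]) = 1 :=
  map_one _

theorem pv_zero (β : ZMod N) : pv β (0 : K[X]) = 0 :=
  map_zero _

theorem pv_C (β : ZMod N) (a : K) : pv β (C a) = AddMonoidAlgebra.single 0 a := by
  unfold pv
  rw [Polynomial.aeval_C]
  rfl

theorem pv_mono (β : ZMod N) (a : K) (k : ℕ) :
    pv β (C a * X ^ k) = AddMonoidAlgebra.single (k • β) a := by
  have h : pv β (X ^ k : K[X]) = AddMonoidAlgebra.single (k • β) 1 := by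
    unfold pv
    rw [map_pow, Polynomial.aeval_X, AddMonoidAlgebra.single_pow, one_pow]
  rw [pv_mul, pv_C, h, AddMonoidAlgebra.single_mul_single, zero_add, mul_one]

theorem one_eq_single : (1 : Rg K N) = AddMonoidAlgebra.single 0 1 :=
  AddMonoidAlgebra.one_def

private theorem B1_coeff_tr (P : K[X]) (j i : ℕ) :
    (tr P j).coeff i = if i < j then P.coeff i else 0 := by
  unfold tr
  rw [Polynomial.finsetSum_coeff]
  simp only [Polynomial.coeff_C_mul_X_pow]
  by_cases h : i < j
  · rw [if_pos h, Finset.sum_eq_single_of_mem i (Finset.mem_range.2 h), if_pos rfl]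
    intro b _ hb
    rw [if_neg (Ne.symm hb)]
  · rw [if_neg h]
    refine Finset.sum_eq_zero fun b hb => ?_
    rw [if_neg]
    intro h2
    exact h (h2 ▸ Finset.mem_range.1 hb)

private theorem B1_sum_le {ι : Type*} (s : Finset ι) (f : ι → Rg K N)
    (h : ∀ i ∈ s, nterms (f i) ≤ 1) : nterms (∑ i ∈ s, f i) ≤ s.card := by
  classical
  induction s using Finset.induction_on with
  | empty => rw [Finset.sum_empty, nterms_zero]; exact Nat.zero_le _
  | insert a s ha ih =>
    rw [Finset.sum_insert ha, Finset.card_insert_of_notMem ha]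
    have h1 := nterms_add_le (f a) (∑ i ∈ s, f i)
    have h2 := h a (Finset.mem_insert_self _ _)
    have h3 := ih fun i hi => h i (Finset.mem_insert_of_mem hi)
    omega

theorem degree_tr_lt (P : K[X]) (j : ℕ) : (tr P j).degree < j := by
  rw [Polynomial.degree_lt_iff_coeff_zero]
  intro m hm
  rw [B1_coeff_tr, if_neg (by omega)]

theorem tr_eq_self (P : K[X]) {d : ℕ} (hd : P.degree < d) : tr P d = P := by
  ext i
  rw [B1_coeff_tr]
  split_ifs with h
  · rfl
  · exact ((Polynomial.degree_lt_iff_coeff_zero P d).1 hd i (by omega)).symm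

private theorem B1_pv_sum (β : ZMod N) (P : K[X]) (s : Finset ℕ) :
    nterms (pv β (∑ i ∈ s, C (P.coeff i) * X ^ i)) ≤ s.card := by
  have h : pv β (∑ i ∈ s, C (P.coeff i) * X ^ i) =
      ∑ i ∈ s, pv β (C (P.coeff i) * X ^ i) := map_sum _ _ _
  rw [h]
  refine B1_sum_le _ _ fun i _ => ?_
  rw [pv_mono]
  exact nterms_single_le _ _

theorem nterms_pv_le (β : ZMod N) (P : K[X]) {d : ℕ} (hd : P.degree < d) : nterms (pv β P) ≤ d := by
  have h := B1_pv_sum β P (Finset.range d)
  rw [Finset.card_range] at h
  have h2 : ∑ i ∈ Finset.range d, C (P.coeff i) * X ^ i = P := tr_eq_self P hd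
  rwa [h2] at h

/-- `nterms` of `P - tr P j` at `x^β`, for `P` of degree `< d`. -/
theorem nterms_pv_tail_le (β : ZMod N) (P : K[X]) {d : ℕ} (hd : P.degree < d) (j : ℕ) (hj : j ≤ d) :
    nterms (pv β (P - tr P j)) ≤ d - j := by
  have h1 : P - tr P j = ∑ i ∈ Finset.Ico j d, C (P.coeff i) * X ^ i := by
    rw [sub_eq_iff_eq_add']
    have h2 := Finset.sum_range_add_sum_Ico (fun i => C (P.coeff i) * X ^ i) hj
    unfold tr
    rw [h2]
    exact (tr_eq_self P hd).symm
  rw [h1]
  have h := B1_pv_sum β P (Finset.Ico j d)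
  rwa [Nat.card_Ico] at h

theorem IsProof.step2 {s : ℕ} {f : Rg K N} {l : List (Rg K N)} (hl : IsProof 2 s f l)
    {P P' : Rg K N} (hP : P ∈ l) (hP' : P' ∈ l) (a a' : ZMod N) (c c' : K)
    (hs : nterms (AddMonoidAlgebra.single a c * P + AddMonoidAlgebra.single a' c' * P') ≤ s) :
    IsProof 2 s f
      ((AddMonoidAlgebra.single a c * P + AddMonoidAlgebra.single a' c' * P') :: l) := by
  refine IsProof.line hl (Or.inr ⟨[(a, c, P), (a', c', P')], by simp, ?_, ?_⟩) hs
  · intro x hx
    rcases List.mem_cons.1 hx with rfl | hx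
    · exact hP
    · rcases List.mem_cons.1 hx with rfl | hx
      · exact hP'
      · exact absurd hx List.not_mem_nil
  · rw [List.map_cons, List.map_cons, List.map_nil, List.sum_cons, List.sum_cons, List.sum_nil,
      add_zero]

theorem IsProof.step1 {s : ℕ} {f : Rg K N} {l : List (Rg K N)} (hl : IsProof 2 s f l)
    {P : Rg K N} (hP : P ∈ l) (a : ZMod N) (c : K)
    (hs : nterms (AddMonoidAlgebra.single a c * P) ≤ s) :
    IsProof 2 s f ((AddMonoidAlgebra.single a c * P) :: l) := by
  refine IsProof.line hl (Or.inr ⟨[(a, c, P)], by simp, ?_, ?_⟩) hs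
  · intro x hx
    rcases List.mem_cons.1 hx with rfl | hx
    · exact hP
    · exact absurd hx List.not_mem_nil
  · rw [List.map_cons, List.map_nil, List.sum_cons, List.sum_nil, add_zero]

theorem IsProof.zero {s : ℕ} {f : Rg K N} {l : List (Rg K N)} (hl : IsProof 2 s f l) :
    IsProof 2 s f (0 :: l) := by
  refine IsProof.line hl (Or.inr ⟨[], by simp, ?_, ?_⟩) ?_
  · intro x hx
    exact absurd hx List.not_mem_nil
  · rw [List.map_nil, List.sum_nil]
  · rw [nterms_zero]
    exact Nat.zero_le _

theorem IsProof.addMul {s : ℕ} {f : Rg K N} {l : List (Rg K N)} (hl : IsProof 2 s f l)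
    (β : ZMod N) {A B : Rg K N} (hA : A ∈ l) (hB : B ∈ l) (P : K[X]) (k : ℕ) (hP : P.degree < k)
    (hs : ∀ j, 1 ≤ j → j ≤ k → nterms (A + pv β (tr P j) * B) ≤ s) :
    ∃ new : List (Rg K N), new.length ≤ k ∧ IsProof 2 s f (new ++ l) ∧
      A + pv β P * B ∈ new ++ l := by
  have key : ∀ j, j ≤ k → ∃ new : List (Rg K N), new.length ≤ j ∧ IsProof 2 s f (new ++ l) ∧
      A + pv β (tr P j) * B ∈ new ++ l := by
    intro j
    induction j with
    | zero =>
      intro _
      refine ⟨[], le_rfl, hl, ?_⟩
      have h0 : tr P 0 = 0 := by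
        unfold tr
        rw [Finset.range_zero, Finset.sum_empty]
      rw [h0, pv_zero, zero_mul, add_zero]
      exact hA
    | succ j ih =>
      intro hj
      obtain ⟨new, h1, h2, h3⟩ := ih (by omega)
      have h4 : AddMonoidAlgebra.single 0 1 * (A + pv β (tr P j) * B) +
          AddMonoidAlgebra.single (j • β) (P.coeff j) * B = A + pv β (tr P (j + 1)) * B := by
        have h5 : tr P (j + 1) = tr P j + C (P.coeff j) * X ^ j := by
          unfold tr
          rw [Finset.sum_range_succ]
        rw [h5, pv_add, pv_mono, ← one_eq_single, one_mul, add_mul, add_assoc]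
      have h6 := IsProof.step2 h2 h3 (List.mem_append_right new hB) 0 (j • β) 1 (P.coeff j)
        (by rw [h4]; exact hs (j + 1) (by omega) hj)
      rw [h4] at h6
      refine ⟨(A + pv β (tr P (j + 1)) * B) :: new, ?_, h6, ?_⟩
      · rw [List.length_cons]
        omega
      · exact List.mem_cons_self
  obtain ⟨new, h1, h2, h3⟩ := key k le_rfl
  rw [tr_eq_self P hP] at h3
  exact ⟨new, h1, h2, h3⟩

end STri
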