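import Pool.Agent.Helper9.ST.B1

/-!
Piece B2: products of lines `y - P(v)`, `v = x^β`.

`prodU`: first line `A = single e₂ 1 * (y₁ - P₁(v)) = y₁ y₂ - y₂ P₁(v)` (at most `1 + a` terms; `step1`), then
`addMul` with `B = y₂ - P₂(v)` and `P = P₁`, `k = a`:  for the truncation `Q = tr P₁ j`
`A + Q(v) B = y₁ y₂ - y₂ (P₁ - Q)(v) - (Q P₂)(v)`
has at most `1 + (a - j) + (j + b - 1) = a + b` terms (`1 ≤ j ≤ a`, `degree (Q P₂) < j + b - 1`).

`prodR`: after `prodU` with `a = b = d` apply `addMul` with `A = y₁ y₂ - G(v)`, `G = P₁ P₂`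
(`degree G < 2 d - 1`), `B = h(v)`, `P = G /ₘ h` (`degree < d - 1`, `k = d - 1`; if `d = 1` then `G /ₘ h = 0`):
`A + (G /ₘ h)(v) h(v) = y₁ y₂ - (G %ₘ h)(v)` (`Polynomial.modByMonic_add_div`), and for truncations `Q`:
`A + Q(v) h(v) = y₁ y₂ - (G - Q h)(v)` with `degree (G - Q h) < 2 d - 1` : at most `2 d` terms.
Number of lines `1 + d + (d - 1) = 2 d`.
-/

namespace STri

open Polynomial

variable {K : Type*} [Field K] {N : ℕ}

private theorem b2_deg_mul {P Q : K[X]} {a b c : ℕ} (hP : P.degree < a) (hQ : Q.degree < b)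
    (h : a + b ≤ c + 1) : (P * Q).degree < c := by
  by_cases hP0 : P = 0
  · rw [hP0, zero_mul, degree_zero]
    exact WithBot.bot_lt_coe _
  by_cases hQ0 : Q = 0
  · rw [hQ0, mul_zero, degree_zero]
    exact WithBot.bot_lt_coe _
  rw [degree_eq_natDegree hP0] at hP
  rw [degree_eq_natDegree hQ0] at hQ
  rw [degree_eq_natDegree (mul_ne_zero hP0 hQ0), natDegree_mul hP0 hQ0]
  have h1 : P.natDegree < a := by exact_mod_cast hP
  have h2 : Q.natDegree < b := by exact_mod_cast hQ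
  have h3 : P.natDegree + Q.natDegree < c := by omega
  exact_mod_cast h3

private theorem b2_deg_sub {P Q : K[X]} {c : WithBot ℕ} (hP : P.degree < c) (hQ : Q.degree < c) :
    (P - Q).degree < c :=
  lt_of_le_of_lt (degree_sub_le P Q) (max_lt hP hQ)

theorem prodU {s a b : ℕ} {f : Rg K N} {l : List (Rg K N)} (hl : IsProof 2 s f l)
    (β e₁ e₂ : ZMod N) {P₁ P₂ : K[X]} (ha : 1 ≤ a) (hb : 1 ≤ b) (h1 : P₁.degree < a)
    (h2 : P₂.degree < b)
    (m1 : AddMonoidAlgebra.single e₁ (1 : K) - pv β P₁ ∈ l)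
    (m2 : AddMonoidAlgebra.single e₂ (1 : K) - pv β P₂ ∈ l) (hs : a + b ≤ s) :
    ∃ new : List (Rg K N), new.length ≤ a + 1 ∧ IsProof 2 s f (new ++ l) ∧
      AddMonoidAlgebra.single (e₁ + e₂) (1 : K) - pv β (P₁ * P₂) ∈ new ++ l := by
  have _ := ha
  set A : Rg K N := AddMonoidAlgebra.single e₂ (1 : K) *
    (AddMonoidAlgebra.single e₁ (1 : K) - pv β P₁) with hA
  have hee : (AddMonoidAlgebra.single (e₁ + e₂) (1 : K) : Rg K N) =
      AddMonoidAlgebra.single e₂ (1 : K) * AddMonoidAlgebra.single e₁ (1 : K) := by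
    rw [AddMonoidAlgebra.single_mul_single, mul_one, add_comm]
  have hAn : nterms A ≤ s := by
    have h3 := nterms_single_mul_le e₂ (1 : K) (AddMonoidAlgebra.single e₁ (1 : K) - pv β P₁)
    have h4 := nterms_sub_le (AddMonoidAlgebra.single e₁ (1 : K)) (pv β P₁)
    have h5 := nterms_single_le e₁ (1 : K)
    have h6 := nterms_pv_le β P₁ h1
    rw [← hA] at h3
    omega
  have hl' : IsProof 2 s f (A :: l) := hl.step1 m1 e₂ 1 hAn
  obtain ⟨new, hlen, hpr, hmem⟩ := hl'.addMul β (List.mem_cons_self)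
    (List.mem_cons_of_mem A m2) P₁ a h1 (by
      intro j hj1 hja
      have h3 : A + pv β (tr P₁ j) * (AddMonoidAlgebra.single e₂ (1 : K) - pv β P₂) =
          AddMonoidAlgebra.single (e₁ + e₂) (1 : K) -
            AddMonoidAlgebra.single e₂ (1 : K) * pv β (P₁ - tr P₁ j) - pv β (tr P₁ j * P₂) := by
        rw [hee, hA, pv_sub, pv_mul]
        ring
      have h4 : (tr P₁ j * P₂).degree < ((j + b - 1 : ℕ) : WithBot ℕ) :=
        b2_deg_mul (degree_tr_lt P₁ j) h2 (by omega)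
      have h5 := nterms_pv_le β _ h4
      have h6 := nterms_pv_tail_le β P₁ h1 j hja
      have h7 := nterms_single_mul_le e₂ (1 : K) (pv β (P₁ - tr P₁ j))
      have h8 := nterms_single_le (e₁ + e₂) (1 : K)
      have h9 := nterms_sub_le (AddMonoidAlgebra.single (e₁ + e₂) (1 : K))
        (AddMonoidAlgebra.single e₂ (1 : K) * pv β (P₁ - tr P₁ j))
      have h10 := nterms_sub_le (AddMonoidAlgebra.single (e₁ + e₂) (1 : K) -
            AddMonoidAlgebra.single e₂ (1 : K) * pv β (P₁ - tr P₁ j)) (pv β (tr P₁ j * P₂))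
      rw [h3]
      omega)
  have hres : A + pv β P₁ * (AddMonoidAlgebra.single e₂ (1 : K) - pv β P₂) =
      AddMonoidAlgebra.single (e₁ + e₂) (1 : K) - pv β (P₁ * P₂) := by
    rw [hee, hA, pv_mul]
    ring
  rw [hres] at hmem
  refine ⟨new ++ [A], ?_, ?_, ?_⟩
  · rw [List.length_append, List.length_singleton]
    omega
  · rw [List.append_assoc]
    exact hpr
  · rw [List.append_assoc]
    exact hmem

theorem prodR {s d : ℕ} {f : Rg K N} {l : List (Rg K N)} (hl : IsProof 2 s f l)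
    (β e₁ e₂ : ZMod N) {h P₁ P₂ : K[X]} (hh : h.Monic) (hd : h.natDegree = d) (hd1 : 1 ≤ d)
    (h1 : P₁.degree < d) (h2 : P₂.degree < d)
    (m1 : AddMonoidAlgebra.single e₁ (1 : K) - pv β P₁ ∈ l)
    (m2 : AddMonoidAlgebra.single e₂ (1 : K) - pv β P₂ ∈ l) (mh : pv β h ∈ l) (hs : 2 * d ≤ s) :
    ∃ new : List (Rg K N), new.length ≤ 2 * d ∧ IsProof 2 s f (new ++ l) ∧
      AddMonoidAlgebra.single (e₁ + e₂) (1 : K) - pv β ((P₁ * P₂) %ₘ h) ∈ new ++ l := by
  obtain ⟨new, hlen, hpr, hmem⟩ := prodU hl β e₁ e₂ hd1 hd1 h1 h2 m1 m2 (by omega)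
  set G : K[X] := P₁ * P₂ with hG
  have hGd : G.degree < ((2 * d - 1 : ℕ) : WithBot ℕ) := b2_deg_mul h1 h2 (by omega)
  have hhd : h.degree < ((d + 1 : ℕ) : WithBot ℕ) := by
    rw [degree_eq_natDegree hh.ne_zero, hd]
    exact_mod_cast Nat.lt_succ_self d
  have hq : (G /ₘ h).degree < ((d - 1 : ℕ) : WithBot ℕ) := by
    by_cases h0 : G /ₘ h = 0
    · rw [h0, degree_zero]
      exact WithBot.bot_lt_coe _
    · have h3 : h.degree ≤ G.degree := by
        by_contra hlt
        exact h0 ((divByMonic_eq_zero_iff hh).2 (not_le.1 hlt))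
      have hG0 : G ≠ 0 := by
        intro hG0
        rw [hG0, zero_divByMonic] at h0
        exact h0 rfl
      have h4 := degree_add_divByMonic hh h3
      rw [degree_eq_natDegree hh.ne_zero, degree_eq_natDegree h0, degree_eq_natDegree hG0, hd]
        at h4
      rw [degree_eq_natDegree hG0] at hGd
      rw [degree_eq_natDegree h0]
      have h5 : d + (G /ₘ h).natDegree = G.natDegree := by exact_mod_cast h4
      have h6 : G.natDegree < 2 * d - 1 := by exact_mod_cast hGd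
      have h7 : (G /ₘ h).natDegree < d - 1 := by omega
      exact_mod_cast h7
  obtain ⟨new', hlen', hpr', hmem'⟩ := hpr.addMul β hmem
    (List.mem_append_right new mh) (G /ₘ h) (d - 1) hq (by
      intro j _ hj
      have h3 : AddMonoidAlgebra.single (e₁ + e₂) (1 : K) - pv β G + pv β (tr (G /ₘ h) j) * pv β h =
          AddMonoidAlgebra.single (e₁ + e₂) (1 : K) - pv β (G - tr (G /ₘ h) j * h) := by
        rw [pv_sub, pv_mul β (tr (G /ₘ h) j) h]
        ring
      have h4 : (G - tr (G /ₘ h) j * h).degree < ((2 * d - 1 : ℕ) : WithBot ℕ) :=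
        b2_deg_sub hGd (b2_deg_mul (degree_tr_lt (G /ₘ h) j) hhd (by omega))
      have h5 := nterms_pv_le β _ h4
      have h6 := nterms_single_le (e₁ + e₂) (1 : K)
      have h7 := nterms_sub_le (AddMonoidAlgebra.single (e₁ + e₂) (1 : K))
        (pv β (G - tr (G /ₘ h) j * h))
      rw [h3]
      omega)
  have hres : AddMonoidAlgebra.single (e₁ + e₂) (1 : K) - pv β G + pv β (G /ₘ h) * pv β h =
      AddMonoidAlgebra.single (e₁ + e₂) (1 : K) - pv β (G %ₘ h) := by
    have h3 : G %ₘ h = G - (G /ₘ h) * h := by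
      have h4 := modByMonic_add_div G h
      rw [mul_comm (G /ₘ h) h]
      exact eq_sub_of_add_eq h4
    rw [h3, pv_sub, pv_mul β (G /ₘ h) h]
    ring
  rw [hres] at hmem'
  refine ⟨new' ++ new, ?_, ?_, ?_⟩
  · rw [List.length_append]
    omega
  · rw [List.append_assoc]
    exact hpr'
  · rw [List.append_assoc]
    exact hmem'

end STri
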