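import Pool.Agent.Helper9.ST.B2

/-!
Piece B3: binary powers modulo `h`.

Induct strongly on `m`.  `m = 0`: the target is `single 0 1 - pv β (1 %ₘ h) = 1 - 1 = 0` (`h` monic of
degree `≥ 1`, `Polynomial.modByMonic_eq_self_iff`), use `IsProof.zero`, one line.  `m = 1`: the target is in `l` (`P %ₘ h = P`), `new = []`.
`m ≥ 2`, `m = 2 m' + b`: derive the line for `m'`, `prodR` it with itself, and if `b = 1` once more `prodR` with the
line for `P` (all lines stay in the list: `new ++ l`).  Use `P^(2 m') %ₘ h = ((P^m' %ₘ h) * (P^m' %ₘ h)) %ₘ h`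
(`Polynomial.mul_modByMonic` or via `AdjoinRoot`/divisibility: `p %ₘ h = q %ₘ h ↔ h ∣ p - q`, see
`Polynomial.modByMonic_eq_...`/ `Polynomial.sub_modByMonic`, `Polynomial.modByMonic_eq_zero_iff_dvd`) and
`degree (_ %ₘ h) < degree h` (`Polynomial.degree_modByMonic_lt`).
Count: `Nat.log 2 m = Nat.log 2 (m / 2) + 1`, each level at most two products of `2 d` lines.
-/

namespace STri

open Polynomial

variable {K : Type*} [Field K] {N : ℕ}

theorem powR {s d : ℕ} {f : Rg K N} {l : List (Rg K N)} (hl : IsProof 2 s f l)
    (β e : ZMod N) {h P : K[X]} (hh : h.Monic) (hd : h.natDegree = d) (hd1 : 1 ≤ d)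
    (h1 : P.degree < d) (m1 : AddMonoidAlgebra.single e (1 : K) - pv β P ∈ l)
    (mh : pv β h ∈ l) (hs : 2 * d ≤ s) (m : ℕ) :
    ∃ new : List (Rg K N), new.length ≤ (2 * Nat.log 2 m + 1) * (2 * d) ∧
      IsProof 2 s f (new ++ l) ∧
      AddMonoidAlgebra.single (m • e) (1 : K) - pv β ((P ^ m) %ₘ h) ∈ new ++ l := by
  have hdeg : h.degree = d := by rw [degree_eq_natDegree hh.ne_zero, hd]
  have hmod : ∀ A : K[X], (A %ₘ h).degree < d := fun A => by
    rw [← hdeg]
    exact degree_modByMonic_lt A hh
  have hP : P %ₘ h = P := (modByMonic_eq_self_iff hh).2 (by rw [hdeg]; exact h1)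
  induction m using Nat.strong_induction_on with
  | _ m ih =>
    rcases Nat.lt_or_ge m 2 with hm | hm
    · rcases Nat.lt_or_ge m 1 with hm0 | hm1
      · have h0 : m = 0 := by omega
        subst h0
        refine ⟨[0], ?_, hl.zero, ?_⟩
        · simp only [List.length_singleton]
          have : Nat.log 2 0 = 0 := by simp
          rw [this]
          omega
        · have e1 : (1 : K[X]) %ₘ h = 1 := (modByMonic_eq_self_iff hh).2 (by
            rw [hdeg, degree_one]
            exact_mod_cast hd1)
          rw [pow_zero, e1, pv_one, zero_smul, one_eq_single, sub_self]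
          simp
      · have h0 : m = 1 := by omega
        subst h0
        refine ⟨[], by simp, hl, ?_⟩
        rw [pow_one, hP, one_smul]
        exact m1
    · have hm2 : m / 2 < m := by omega
      obtain ⟨n1, hn1, hp1, hm1⟩ := ih (m / 2) hm2
      obtain ⟨n2, hn2, hp2, hm2'⟩ := prodR hp1 β ((m / 2) • e) ((m / 2) • e) hh hd hd1
        (hmod _) (hmod _) hm1 hm1 (List.mem_append_right _ mh) hs
      have hlog : Nat.log 2 m = Nat.log 2 (m / 2) + 1 := by
        rw [Nat.log_div_base]
        have : 1 ≤ Nat.log 2 m := Nat.log_pos (by norm_num) hm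
        omega
      have hsq : ((P ^ (m / 2) %ₘ h) * (P ^ (m / 2) %ₘ h)) %ₘ h = P ^ (2 * (m / 2)) %ₘ h := by
        rw [← mul_modByMonic, ← pow_add]
        congr 2
        ring
      have he : (m / 2) • e + (m / 2) • e = (2 * (m / 2)) • e := by
        rw [← add_smul]
        congr 1
        ring
      rw [hsq, he] at hm2'
      rcases Nat.even_or_odd' m with ⟨j, hj | hj⟩
      · have hj2 : 2 * (m / 2) = m := by omega
        rw [hj2] at hm2'
        refine ⟨n2 ++ n1, ?_, ?_, ?_⟩
        · rw [List.length_append, hlog]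
          nlinarith
        · rw [List.append_assoc]
          exact hp2
        · rw [List.append_assoc]
          exact hm2'
      · have hj2 : m = 2 * (m / 2) + 1 := by omega
        obtain ⟨n3, hn3, hp3, hm3⟩ := prodR hp2 β ((2 * (m / 2)) • e) e hh hd hd1
          (hmod _) h1 hm2' (List.mem_append_right _ (List.mem_append_right _ m1))
          (List.mem_append_right _ (List.mem_append_right _ mh)) hs
        have hpr : ((P ^ (2 * (m / 2)) %ₘ h) * P) %ₘ h = P ^ m %ₘ h := by
          conv_lhs => rw [← hP]
          rw [hP]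
          conv_rhs => rw [hj2, pow_succ, mul_modByMonic, hP]
        have he3 : (2 * (m / 2)) • e + e = m • e := by
          conv_rhs => rw [hj2]
          rw [add_smul, one_smul]
        rw [hpr, he3] at hm3
        refine ⟨n3 ++ (n2 ++ n1), ?_, ?_, ?_⟩
        · rw [List.length_append, List.length_append, hlog]
          nlinarith
        · rw [List.append_assoc, List.append_assoc]
          exact hp3
        · rw [List.append_assoc, List.append_assoc]
          exact hm3

end STri
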