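import Pool.Agent.Helper9.ST.B1

/-!
Piece C1: binomials have short refutations with two terms in every line.

Let `f = single α 1 + single 0 b = y - c`, `c = -b ≠ 0`, `y = x^α`.  For `m ≥ 1` the line `L_m = y^m - c^m`
(`single (m • α) 1 - single 0 (c^m)`) is derived from `L_{m'}` (`m = 2 m' + e`) by
`L_{2m'} = y^m' L_m' + c^m' L_m'` and, if `e = 1`, `L_{m+1} = y L_m + c^m L_1`; each is one `step2`.
Let `a = α.val`, `g = gcd a N`, `E = N / g`, so `E • α = 0` and `L_E = single 0 (1 - c^E)`.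
Claim `c^E ≠ 1`: write `a = g a'`, `a' s + E t = 1` in integers; if `c^E = 1` put `η = c^s` (zpow) in
`AlgebraicClosure K` and take `x` with `x^g = η` (`IsAlgClosed.exists_pow_nat_eq`): `x^N = η^E = 1`,
`x^a = η^a' = c^(a' s) = c^(1 - E t) = c`, contradicting `hroot`.
So one last step `single 0 (1 - c^E)⁻¹ * L_E = 1`.  Count: `1 + 2 log₂ E + 1`.
-/

namespace STri

open Polynomial

variable {K : Type*} [Field K] {N : ℕ}

/-- the line `y^m - c^m` -/
private noncomputable def c1L (α : ZMod N) (c : K) (m : ℕ) : Rg K N :=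
  AddMonoidAlgebra.single (m • α) (1 : K) - AddMonoidAlgebra.single 0 (c ^ m)

private theorem c1L_terms (α : ZMod N) (c : K) (m : ℕ) : nterms (c1L α c m) ≤ 2 :=
  (nterms_sub_le _ _).trans (Nat.add_le_add (nterms_single_le _ _) (nterms_single_le _ _))

private theorem c1L_double (α : ZMod N) (c : K) (m : ℕ) :
    AddMonoidAlgebra.single (m • α) (1 : K) * c1L α c m +
      AddMonoidAlgebra.single 0 (c ^ m) * c1L α c m = c1L α c (2 * m) := by
  unfold c1L
  rw [mul_sub, mul_sub, AddMonoidAlgebra.single_mul_single, AddMonoidAlgebra.single_mul_single,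
    AddMonoidAlgebra.single_mul_single, AddMonoidAlgebra.single_mul_single]
  simp only [one_mul, mul_one, add_zero, zero_add]
  rw [sub_add_sub_cancel, ← add_nsmul, ← pow_add, two_mul]

private theorem c1L_succ (α : ZMod N) (c : K) (m : ℕ) :
    AddMonoidAlgebra.single α (1 : K) * c1L α c m +
      AddMonoidAlgebra.single 0 (c ^ m) * c1L α c 1 = c1L α c (m + 1) := by
  unfold c1L
  rw [mul_sub, mul_sub, AddMonoidAlgebra.single_mul_single, AddMonoidAlgebra.single_mul_single,
    AddMonoidAlgebra.single_mul_single, AddMonoidAlgebra.single_mul_single]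
  simp only [one_mul, mul_one, add_zero, zero_add, one_smul, pow_one]
  rw [← pow_succ, succ_nsmul', sub_add_sub_cancel]

private theorem c1L_chain (α : ZMod N) (c : K) (m : ℕ) (hm : 1 ≤ m) :
    ∃ l : List (Rg K N), IsProof 2 2 (c1L α c 1) l ∧ c1L α c m ∈ l ∧ c1L α c 1 ∈ l ∧
      l.length ≤ 2 * Nat.log 2 m + 1 := by
  induction m using Nat.strong_induction_on with
  | _ m ih =>
    rcases Nat.lt_or_ge m 2 with h | h
    · have h1 : m = 1 := by omega
      subst h1
      refine ⟨[c1L α c 1], IsProof.line IsProof.nil (Or.inl rfl) (c1L_terms α c 1),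
        List.mem_singleton_self _, List.mem_singleton_self _, ?_⟩
      simp
    · obtain ⟨l, hl, hml, h1l, hlen⟩ := ih (m / 2) (by omega) (by omega)
      have hlog : Nat.log 2 m = Nat.log 2 (m / 2) + 1 := Nat.log_of_one_lt_of_le one_lt_two h
      have hd := hl.step2 hml hml ((m / 2) • α) 0 (1 : K) (c ^ (m / 2))
        (by rw [c1L_double]; exact c1L_terms _ _ _)
      rw [c1L_double] at hd
      rcases Nat.mod_two_eq_zero_or_one m with h2 | h2
      · have e : 2 * (m / 2) = m := by omega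
        rw [e] at hd
        refine ⟨_, hd, List.mem_cons_self, List.mem_cons_of_mem _ h1l, ?_⟩
        rw [List.length_cons]
        omega
      · have e : 2 * (m / 2) + 1 = m := by omega
        have hs := hd.step2 (P := c1L α c (2 * (m / 2))) (P' := c1L α c 1) List.mem_cons_self
          (List.mem_cons_of_mem _ h1l) α 0 (1 : K) (c ^ (2 * (m / 2)))
          (by rw [c1L_succ]; exact c1L_terms _ _ _)
        rw [c1L_succ, e] at hs
        refine ⟨_, hs, List.mem_cons_self,
          List.mem_cons_of_mem _ (List.mem_cons_of_mem _ h1l), ?_⟩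
        rw [List.length_cons, List.length_cons]
        omega

/-- The order of `c` does not divide `N / gcd`. -/
private theorem c1_root [NeZero N] {a : ℕ} {b : K} (hb : b ≠ 0)
    (hroot : ∀ x : AlgebraicClosure K, x ^ N = 1 →
      x ^ a + algebraMap K (AlgebraicClosure K) b ≠ 0) :
    (-b) ^ (N / Nat.gcd a N) ≠ 1 := by
  intro hE
  have hN : 0 < N := Nat.pos_of_ne_zero (NeZero.ne N)
  have hg : 0 < Nat.gcd a N := Nat.gcd_pos_of_pos_right _ hN
  obtain ⟨g, hgd⟩ : ∃ g, g = Nat.gcd a N := ⟨_, rfl⟩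
  obtain ⟨a', ha'⟩ : g ∣ a := hgd ▸ Nat.gcd_dvd_left a N
  obtain ⟨E, hE'⟩ : g ∣ N := hgd ▸ Nat.gcd_dvd_right a N
  rw [← hgd] at hE hg
  have hNg : N / g = E := by rw [hE', Nat.mul_div_cancel_left _ hg]
  rw [hNg] at hE
  have hcop : Nat.Coprime a' E := by
    have h1 : g * Nat.gcd a' E = g := by
      rw [← Nat.gcd_mul_left, ← ha', ← hE']
      exact hgd.symm
    exact Nat.eq_of_mul_eq_mul_left hg (by rw [h1, mul_one])
  obtain ⟨s, t, hst⟩ := Int.isCoprime_iff_gcd_eq_one.2
    (show Int.gcd (a' : ℤ) (E : ℤ) = 1 from hcop)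
  obtain ⟨C, hC⟩ : ∃ C, C = algebraMap K (AlgebraicClosure K) (-b) := ⟨_, rfl⟩
  have hC0 : C ≠ 0 := by
    rw [hC, Ne, map_eq_zero_iff _ (algebraMap K (AlgebraicClosure K)).injective, neg_eq_zero]
    exact hb
  have hCE : C ^ E = 1 := by rw [hC, ← map_pow, hE, map_one]
  obtain ⟨x, hx⟩ := IsAlgClosed.exists_pow_nat_eq (C ^ s) hg
  have hxN : x ^ N = 1 := by
    rw [hE', pow_mul, hx, ← zpow_natCast, ← zpow_mul, mul_comm s, zpow_mul, zpow_natCast, hCE,
      one_zpow]
  have hxa : x ^ a = C := by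
    rw [ha', pow_mul, hx, ← zpow_natCast, ← zpow_mul]
    have e : s * (a' : ℤ) = 1 + (E : ℤ) * (-t) := by linear_combination hst
    rw [e, zpow_add₀ hC0, zpow_one, zpow_mul, zpow_natCast, hCE, one_zpow, mul_one]
  apply hroot x hxN
  rw [hxa, hC, map_neg, neg_add_cancel]

theorem binomial [NeZero N] {α : ZMod N} {b : K} (hb : b ≠ 0)
    (hroot : ∀ x : AlgebraicClosure K, x ^ N = 1 →
      x ^ α.val + algebraMap K (AlgebraicClosure K) b ≠ 0) :
    ∃ l : List (Rg K N), IsProof 2 2 (AddMonoidAlgebra.single α (1 : K) + AddMonoidAlgebra.single 0 b) l ∧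
      (1 : Rg K N) ∈ l ∧ l.length ≤ 2 * Nat.log 2 N + 2 := by
  have hN : 0 < N := Nat.pos_of_ne_zero (NeZero.ne N)
  have hg : 0 < Nat.gcd α.val N := Nat.gcd_pos_of_pos_right _ hN
  have hgN : Nat.gcd α.val N ∣ N := Nat.gcd_dvd_right _ _
  obtain ⟨E, hE⟩ : ∃ E, E = N / Nat.gcd α.val N := ⟨_, rfl⟩
  have hE1 : 1 ≤ E := by
    rw [hE]
    exact Nat.div_pos (Nat.le_of_dvd hN hgN) hg
  have hEN : E ≤ N := by
    rw [hE]
    exact Nat.div_le_self _ _
  have hroot' := c1_root hb hroot
  rw [← hE] at hroot'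
  have hf : AddMonoidAlgebra.single α (1 : K) + AddMonoidAlgebra.single 0 b =
      c1L α (-b) 1 := by
    unfold c1L
    rw [one_smul, pow_one, AddMonoidAlgebra.single_neg, sub_neg_eq_add]
  have hEα : E • α = 0 := by
    have h1 : N ∣ E * α.val := by
      obtain ⟨a', ha'⟩ := Nat.gcd_dvd_left α.val N
      have h2 : E * Nat.gcd α.val N = N := by rw [hE]; exact Nat.div_mul_cancel hgN
      refine ⟨a', ?_⟩
      calc E * α.val = E * (Nat.gcd α.val N * a') := by rw [← ha']
        _ = E * Nat.gcd α.val N * a' := by ring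
        _ = N * a' := by rw [h2]
    have h3 : ((E * α.val : ℕ) : ZMod N) = 0 := (ZMod.natCast_eq_zero_iff _ _).2 h1
    rw [Nat.cast_mul, ZMod.natCast_zmod_val] at h3
    rw [nsmul_eq_mul]
    exact h3
  obtain ⟨l, hl, hEl, _, hlen⟩ := c1L_chain α (-b) E hE1
  have hu : (1 - (-b) ^ E) ≠ 0 := sub_ne_zero.2 (Ne.symm hroot')
  have hLE : AddMonoidAlgebra.single 0 (1 - (-b) ^ E)⁻¹ * c1L α (-b) E = (1 : Rg K N) := by
    unfold c1L
    rw [hEα, ← AddMonoidAlgebra.single_sub, AddMonoidAlgebra.single_mul_single, zero_add,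
      inv_mul_cancel₀ hu, one_eq_single]
  have hlast := hl.step1 hEl 0 (1 - (-b) ^ E)⁻¹ (by
    rw [hLE, one_eq_single]
    exact (nterms_single_le _ _).trans one_le_two)
  rw [hLE] at hlast
  rw [hf]
  refine ⟨_, hlast, List.mem_cons_self, ?_⟩
  rw [List.length_cons]
  have h4 : Nat.log 2 E ≤ Nat.log 2 N := Nat.log_mono_right hEN
  omega

end STri
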