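import Mathlib

/-!
Sparse polynomial calculus modulo `x^N - 1` : definitions.
-/

namespace STri

open Polynomial

/-- The ring `K[x]/(x^N - 1)`, as the group algebra of `ZMod N`
(the monomial `c x^m` is `AddMonoidAlgebra.single m c`). -/
abbrev Rg (K : Type*) [Field K] (N : ℕ) := AddMonoidAlgebra K (ZMod N)

section

variable {K : Type*} [Field K] {N : ℕ}

/-- The number of terms (nonzero coefficients) of an element of `K[x]/(x^N - 1)`. -/
def nterms (P : Rg K N) : ℕ := P.coeff.support.card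

/-- `Q` is a sum of at most `r` monomial multiples `c x^m P` of members `P` of `l`. -/
def Step (r : ℕ) (l : List (Rg K N)) (Q : Rg K N) : Prop :=
  ∃ t : List (ZMod N × K × Rg K N), t.length ≤ r ∧ (∀ x ∈ t, x.2.2 ∈ l) ∧
    Q = (t.map fun x => AddMonoidAlgebra.single x.1 x.2.1 * x.2.2).sum

/-- `IsProof r s f l` : the list `l` (latest line first) is a derivation from `f` in
`K[x]/(x^N - 1)`: every line is `f` or a sum of at most `r` monomial multiples of earlier
lines, and every line has at most `s` terms. -/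
inductive IsProof (r s : ℕ) (f : Rg K N) : List (Rg K N) → Prop
  | nil : IsProof r s f []
  | line {l : List (Rg K N)} {Q : Rg K N} : IsProof r s f l → (Q = f ∨ Step r l Q) →
      nterms Q ≤ s → IsProof r s f (Q :: l)

/-- The trinomial `c₁ x^α + c₂ x^β + c₃` in `K[x]/(x^N - 1)`. -/
noncomputable def tri (N : ℕ) (α β : ZMod N) (c₁ c₂ c₃ : K) : Rg K N :=
  AddMonoidAlgebra.single α c₁ + AddMonoidAlgebra.single β c₂ + AddMonoidAlgebra.single 0 c₃

/-- There is a nontrivial relation `i α + j β = 0` in `ZMod N` with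
`|i|, |j|, |i+j| ≤ n`. -/
def Rel (N : ℕ) (α β : ZMod N) (n : ℕ) : Prop :=
  ∃ i j : ℤ, (i ≠ 0 ∨ j ≠ 0) ∧ |i| ≤ n ∧ |j| ≤ n ∧ |i + j| ≤ n ∧
    (i : ZMod N) * α + (j : ZMod N) * β = 0

/-- The characteristic of `K` is zero or larger than `n`. -/
def CharOK (K : Type*) [Field K] (n : ℕ) : Prop := ∀ k : ℕ, 1 ≤ k → k ≤ n → (k : K) ≠ 0

/-- `(X + c)^a X^b`. -/
noncomputable def mon (c : K) (z : ℕ × ℕ) : K[X] := (X + C c) ^ z.1 * X ^ z.2

/-- The derivation `X (X + c) d/dX`. -/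
noncomputable def del (c : K) (P : K[X]) : K[X] := X * (X + C c) * derivative P

/-- Evaluation of a Laurent polynomial in two variables on the line
`U = κ (X + c)`, `V = X`. -/
noncomputable def ev (κ c : K) (H : ℤ × ℤ →₀ K) : RatFunc K :=
  H.sum fun z h => RatFunc.C h * (RatFunc.C κ * (RatFunc.X + RatFunc.C c)) ^ z.1 *
    RatFunc.X ^ z.2

/-- The set `S` lies in a triangle `i₀ ≤ z.1`, `j₀ ≤ z.2`, `z.1 + z.2 ≤ i₀ + j₀ + D`. -/
def InTri (D : ℕ) (S : Finset (ℤ × ℤ)) : Prop :=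
  ∃ i₀ j₀ : ℤ, ∀ z ∈ S, i₀ ≤ z.1 ∧ j₀ ≤ z.2 ∧ z.1 + z.2 ≤ i₀ + j₀ + D

/-- The exponent `z.1 α + z.2 β`. -/
def pr (α β : ZMod N) (z : ℤ × ℤ) : ZMod N := (z.1 : ZMod N) * α + (z.2 : ZMod N) * β

/-- A piece: a base exponent, a Laurent polynomial and a size. -/
structure Pc (K : Type*) [Field K] (N : ℕ) where
  g : ZMod N
  H : ℤ × ℤ →₀ K
  D : ℕ

/-- The image `x^g H(x^α, x^β)` of a piece. -/
noncomputable def img (α β : ZMod N) (p : Pc K N) : Rg K N :=
  p.H.sum fun z h => AddMonoidAlgebra.single (p.g + pr α β z) h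

/-- The exponents met by a piece. -/
noncomputable def ims (α β : ZMod N) (p : Pc K N) : Finset (ZMod N) :=
  p.H.support.image fun z => p.g + pr α β z

/-- `P(x^β)` in `K[x]/(x^N - 1)`. -/
noncomputable def pv (β : ZMod N) (P : K[X]) : Rg K N :=
  Polynomial.aeval (AddMonoidAlgebra.single β (1 : K)) P

end

end STri
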