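import Pool.Agent.Helper9.ST.PG

/-!
Piece GS: splitting of a Laurent polynomial that vanishes on the line into pieces of small size.

PROOF.  Strong induction on `H.support.card`.  If `H = 0` take `L = []`.
Otherwise consider the nonempty subsets `T ⊆ H.support` with
`ev κ c (H.filter (· ∈ T)) = 0` (`H.support` is one); take one of minimal cardinality, `G = H.filter (· ∈ T)`,
so `G.support = T`, `G ≠ 0`, `ev κ c G = 0`, and `H - G` is `H.filter (· ∉ T)`, with
support `H.support \ T`, vanishing (`ev` is additive), `InTri n`, smaller.  Apply the induction hypothesis to `H - G` and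
cons `G`.

It remains to bound the size of `G`.  Let `i₀, j₀` be from `InTri n`.  Let `S ⊆ ℕ × ℕ` be the image of `T`
under `z ↦ ((z.1 - i₀).toNat, (z.2 - j₀).toNat)` (injective on `T`) and `g` of the image of `z` be
`H z * κ ^ (z.1 - i₀)` (exponent in `ℕ` or `ℤ`).  Multiplying `ev κ c (partial sum)` by the unit
`(κ (X + c))^(-i₀) X^(-j₀)` of `RatFunc K` shows that for every `T' ⊆ T` the sum
`ev κ c (H.filter (· ∈ T'))` is zero iff `∑_{z ∈ image T'} C (g z) * mon c z = 0` in `K[X]`
(use that `algebraMap K[X] (RatFunc K)` is injective, `RatFunc.algebraMap_X`, `RatFunc.algebraMap_C`; the elements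
`RatFunc.X` and `C κ * (X + C c)` are nonzero).
Hence `S` satisfies the hypotheses of `gap` (piece PG) with `D = n`, and the coordinates of points of
`T` differ by at most `(t-1).choose 2`, `t = T.card = S.card`.  With `i₁, j₁` the minima of the
coordinates on `T`: `z.1 + z.2 ≤ i₁ + j₁ + 2 * (t-1).choose 2 = i₁ + j₁ + (t-1)*(t-2)`
(`Nat.choose_two_right`, `Nat.even_mul_pred_self`).
-/

namespace STri

open Polynomial

private lemma gs_ev_add {K : Type*} [Field K] (κ c : K) (F G : ℤ × ℤ →₀ K) :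
    ev κ c (F + G) = ev κ c F + ev κ c G := by
  unfold ev
  refine Finsupp.sum_add_index' (fun z => ?_) (fun z a b => ?_)
  · rw [map_zero, zero_mul, zero_mul]
  · rw [map_add, add_mul, add_mul]

private lemma gs_support {K : Type*} [Field K] (H : ℤ × ℤ →₀ K) {T : Finset (ℤ × ℤ)}
    (hT : T ⊆ H.support) : (H.filter (fun z => z ∈ T)).support = T := by
  classical
  ext z
  rw [Finsupp.support_filter, Finset.mem_filter]
  exact ⟨fun h => h.2, fun h => ⟨hT h, h⟩⟩

private lemma gs_ev_filter {K : Type*} [Field K] (κ c : K) (H : ℤ × ℤ →₀ K)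
    {T : Finset (ℤ × ℤ)} (hT : T ⊆ H.support) :
    ev κ c (H.filter (fun z => z ∈ T)) =
      ∑ z ∈ T, RatFunc.C (H z) * (RatFunc.C κ * (RatFunc.X + RatFunc.C c)) ^ z.1 *
        RatFunc.X ^ z.2 := by
  classical
  unfold ev
  rw [Finsupp.sum, gs_support H hT]
  refine Finset.sum_congr rfl fun z hz => ?_
  rw [Finsupp.filter_apply_pos _ _ hz]

private lemma gs_lin_ne {K : Type*} [Field K] (c : K) :
    (RatFunc.X + RatFunc.C c : RatFunc K) ≠ 0 := by
  intro h
  have h1 : algebraMap K[X] (RatFunc K) (X + C c) = 0 := by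
    rw [map_add, RatFunc.algebraMap_X, RatFunc.algebraMap_C]
    exact h
  have h2 : (X + C c : K[X]) = 0 := by
    apply RatFunc.algebraMap_injective K
    rw [h1, map_zero]
  exact Polynomial.X_add_C_ne_zero c h2

/-- one term on the line -/
private lemma gs_term {K : Type*} [Field K] (κ c : K) (hκ : κ ≠ 0) (i₀ j₀ : ℤ) (h : K)
    (s : ℕ × ℕ) :
    RatFunc.C h * (RatFunc.C κ * (RatFunc.X + RatFunc.C c)) ^ (i₀ + (s.1 : ℤ)) *
        RatFunc.X ^ (j₀ + (s.2 : ℤ)) =
      ((RatFunc.C κ * (RatFunc.X + RatFunc.C c)) ^ i₀ * RatFunc.X ^ j₀) *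
        algebraMap K[X] (RatFunc K) (C (h * κ ^ s.1) * mon c s) := by
  have h1 : (RatFunc.C κ * (RatFunc.X + RatFunc.C c) : RatFunc K) ≠ 0 :=
    mul_ne_zero (by simpa using hκ) (gs_lin_ne c)
  rw [zpow_add₀ h1, zpow_add₀ RatFunc.X_ne_zero, zpow_natCast, zpow_natCast]
  have h2 : algebraMap K[X] (RatFunc K) (C (h * κ ^ s.1) * mon c s) =
      RatFunc.C h * RatFunc.C κ ^ s.1 *
        ((RatFunc.X + RatFunc.C c) ^ s.1 * RatFunc.X ^ s.2) := by
    unfold mon
    simp only [map_mul, map_pow, map_add, RatFunc.algebraMap_X, RatFunc.algebraMap_C]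
  rw [h2, mul_pow (RatFunc.C κ) _ s.1]
  ring

/-- the size of a minimal vanishing part -/
private lemma gs_min {K : Type*} [Field K] (κ c : K) (hκ : κ ≠ 0) (hc : c ≠ 0) (n : ℕ)
    (hn : CharOK K n) (H : ℤ × ℤ →₀ K) (T : Finset (ℤ × ℤ)) (hne : T.Nonempty)
    (ht : InTri n T)
    (h0 : ∑ z ∈ T, RatFunc.C (H z) * (RatFunc.C κ * (RatFunc.X + RatFunc.C c)) ^ z.1 *
        RatFunc.X ^ z.2 = 0)
    (hmin : ∀ T' ⊆ T, T'.Nonempty →
      ∑ z ∈ T', RatFunc.C (H z) * (RatFunc.C κ * (RatFunc.X + RatFunc.C c)) ^ z.1 *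
        RatFunc.X ^ z.2 = 0 → T.card ≤ T'.card) :
    InTri ((T.card - 1) * (T.card - 2)) T := by
  classical
  obtain ⟨i₀, j₀, ht⟩ := ht
  set e : ℕ × ℕ → ℤ × ℤ := fun s => (i₀ + s.1, j₀ + s.2) with he
  have hinj : Function.Injective e := by
    intro s s' h
    have h1 := congrArg Prod.fst h
    have h2 := congrArg Prod.snd h
    simp only [he] at h1 h2
    refine Prod.ext ?_ ?_
    · omega
    · omega
  set f : ℤ × ℤ → ℕ × ℕ := fun z => ((z.1 - i₀).toNat, (z.2 - j₀).toNat) with hf
  have hef : ∀ z ∈ T, e (f z) = z := by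
    intro z hz
    have h1 := ht z hz
    refine Prod.ext ?_ ?_
    · change i₀ + ((z.1 - i₀).toNat : ℤ) = z.1
      omega
    · change j₀ + ((z.2 - j₀).toNat : ℤ) = z.2
      omega
  set S : Finset (ℕ × ℕ) := T.image f with hS
  have hST : S.image e = T := by
    rw [hS, Finset.image_image]
    ext z
    rw [Finset.mem_image]
    constructor
    · rintro ⟨w, hw, rfl⟩
      rw [Function.comp_apply, hef w hw]
      exact hw
    · intro hz
      exact ⟨z, hz, hef z hz⟩
  set g : ℕ × ℕ → K := fun s => H (e s) * κ ^ s.1 with hg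
  set U : RatFunc K := (RatFunc.C κ * (RatFunc.X + RatFunc.C c)) ^ i₀ * RatFunc.X ^ j₀ with hU
  have hU0 : U ≠ 0 := by
    have h1 : (RatFunc.C κ * (RatFunc.X + RatFunc.C c) : RatFunc K) ≠ 0 :=
      mul_ne_zero (by simpa using hκ) (gs_lin_ne c)
    exact mul_ne_zero (zpow_ne_zero _ h1) (zpow_ne_zero _ RatFunc.X_ne_zero)
  have key : ∀ S' : Finset (ℕ × ℕ),
      (∑ z ∈ S'.image e, RatFunc.C (H z) * (RatFunc.C κ * (RatFunc.X + RatFunc.C c)) ^ z.1 *
        RatFunc.X ^ z.2) = U * algebraMap K[X] (RatFunc K) (∑ s ∈ S', C (g s) * mon c s) := by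
    intro S'
    rw [Finset.sum_image (fun a _ b _ h => hinj h), map_sum, Finset.mul_sum]
    refine Finset.sum_congr rfl fun s _ => ?_
    exact gs_term κ c hκ i₀ j₀ (H (e s)) s
  have key0 : ∀ S' : Finset (ℕ × ℕ),
      (∑ z ∈ S'.image e, RatFunc.C (H z) * (RatFunc.C κ * (RatFunc.X + RatFunc.C c)) ^ z.1 *
        RatFunc.X ^ z.2) = 0 ↔ ∑ s ∈ S', C (g s) * mon c s = 0 := by
    intro S'
    rw [key S']
    constructor
    · intro h
      rcases mul_eq_zero.1 h with h1 | h1
      · exact absurd h1 hU0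
      · apply RatFunc.algebraMap_injective K
        rw [h1, map_zero]
    · intro h
      rw [h, map_zero, mul_zero]
  have hcard : T.card = S.card := by
    rw [← hST]
    exact Finset.card_image_of_injective S hinj
  have hgap := gap c hc n hn S (by
      intro s hs
      obtain ⟨z, hz, rfl⟩ := Finset.mem_image.1 hs
      have h1 := ht z hz
      change (z.1 - i₀).toNat + (z.2 - j₀).toNat ≤ n
      omega) g ((key0 S).1 (by rw [hST]; exact h0)) (by
      intro S' hS' hne' h
      have h1 : S'.image e ⊆ T := by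
        rw [← hST]
        exact Finset.image_subset_image hS'
      have h2 := hmin (S'.image e) h1 (hne'.image e) ((key0 S').2 h)
      rw [Finset.card_image_of_injective S' hinj, hcard] at h2
      exact Finset.eq_of_subset_of_card_le hS' h2)
  rw [← hcard] at hgap
  have hgapT : ∀ z ∈ T, ∀ w ∈ T, z.2 ≤ w.2 + ((T.card - 1).choose 2 : ℕ) ∧
      z.1 ≤ w.1 + ((T.card - 1).choose 2 : ℕ) := by
    intro z hz w hw
    have h1 := hgap (f z) (Finset.mem_image_of_mem f hz) (f w) (Finset.mem_image_of_mem f hw)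
    have h2 := ht z hz
    have h3 := ht w hw
    have h4 : (z.2 - j₀).toNat ≤ (w.2 - j₀).toNat + (T.card - 1).choose 2 := h1.1
    have h5 : (z.1 - i₀).toNat ≤ (w.1 - i₀).toNat + (T.card - 1).choose 2 := h1.2
    constructor
    · omega
    · omega
  obtain ⟨w1, hw1, hm1⟩ := Finset.exists_min_image T (fun z => z.1) hne
  obtain ⟨w2, hw2, hm2⟩ := Finset.exists_min_image T (fun z => z.2) hne
  refine ⟨w1.1, w2.2, fun z hz => ⟨hm1 z hz, hm2 z hz, ?_⟩⟩
  have h1 := (hgapT z hz w1 hw1).2
  have h2 := (hgapT z hz w2 hw2).1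
  have h3 : 2 * (T.card - 1).choose 2 = (T.card - 1) * (T.card - 2) := by
    rw [Nat.choose_two_right, Nat.mul_div_cancel' (Nat.even_mul_pred_self _).two_dvd]
    rfl
  have h4 : (((T.card - 1) * (T.card - 2) : ℕ) : ℤ) = 2 * ((T.card - 1).choose 2 : ℕ) := by
    rw [← h3]
    push_cast
    ring
  rw [h4]
  omega

theorem gap_split {K : Type*} [Field K] (κ c : K) (hκ : κ ≠ 0) (hc : c ≠ 0) (n : ℕ)
    (hn : CharOK K n) (H : ℤ × ℤ →₀ K) (hH : ev κ c H = 0) (ht : InTri n H.support) :
    ∃ L : List (ℤ × ℤ →₀ K), L.sum = H ∧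
      (∀ G ∈ L, G ≠ 0 ∧ ev κ c G = 0 ∧
        InTri ((G.support.card - 1) * (G.support.card - 2)) G.support ∧
        G.support ⊆ H.support) ∧
      L.Pairwise (fun G G' => Disjoint G.support G'.support) := by
  classical
  obtain ⟨N, hN⟩ : ∃ N, N = H.support.card := ⟨_, rfl⟩
  induction N using Nat.strong_induction_on generalizing H with
  | _ N ih =>
    by_cases hz : H = 0
    · exact ⟨[], by rw [hz]; rfl, by simp, List.Pairwise.nil⟩
    have hfull : H.filter (fun z => z ∈ H.support) = H := by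
      ext z
      by_cases h : z ∈ H.support
      · rw [Finsupp.filter_apply_pos _ _ h]
      · rw [Finsupp.filter_apply_neg _ _ h]
        exact (Finsupp.notMem_support_iff.1 h).symm
    set A : Finset (Finset (ℤ × ℤ)) := H.support.powerset.filter (fun T => T.Nonempty ∧
      ev κ c (H.filter (fun z => z ∈ T)) = 0) with hA
    have hAne : A.Nonempty := by
      refine ⟨H.support, Finset.mem_filter.2 ⟨Finset.mem_powerset_self _, ?_, ?_⟩⟩
      · rw [Finset.nonempty_iff_ne_empty]
        intro h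
        exact hz (Finsupp.support_eq_empty.1 h)
      · rw [hfull]
        exact hH
    obtain ⟨T, hTA, hTmin⟩ := Finset.exists_min_image A Finset.card hAne
    obtain ⟨hTs, hTne, hT0⟩ := Finset.mem_filter.1 hTA
    rw [Finset.mem_powerset] at hTs
    set G := H.filter (fun z => z ∈ T) with hG
    set H' := H.filter (fun z => ¬ z ∈ T) with hH'
    have hsum : G + H' = H := Finsupp.filter_add_filter_not H (fun z => z ∈ T)
    have hev' : ev κ c H' = 0 := by
      have h1 := gs_ev_add κ c G H'
      rw [hsum, hH, hT0, zero_add] at h1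
      exact h1.symm
    have hGs : G.support = T := gs_support H hTs
    have hH's : H'.support = H.support \ T := by
      ext z
      rw [hH', Finsupp.support_filter, Finset.mem_filter, Finset.mem_sdiff]
    have hH'sub : H'.support ⊆ H.support := by
      rw [hH's]
      exact Finset.sdiff_subset
    have hlt : H'.support.card < N := by
      rw [hN, hH's]
      refine Finset.card_lt_card ?_
      refine ⟨Finset.sdiff_subset, fun h => ?_⟩
      obtain ⟨z, hzT⟩ := hTne
      exact (Finset.mem_sdiff.1 (h (hTs hzT))).2 hzT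
    have htT : ∀ {S : Finset (ℤ × ℤ)}, S ⊆ H.support → InTri n S := by
      intro S hS
      obtain ⟨i, j, h⟩ := ht
      exact ⟨i, j, fun z hz => h z (hS hz)⟩
    obtain ⟨L, hL1, hL2, hL3⟩ := ih _ hlt H' hev' (htT hH'sub) rfl
    refine ⟨G :: L, ?_, ?_, ?_⟩
    · rw [List.sum_cons, hL1, hsum]
    · intro F hF
      rcases List.mem_cons.1 hF with rfl | hF
      · refine ⟨?_, hT0, ?_, ?_⟩
        · intro h
          rw [h, Finsupp.support_zero] at hGs
          rw [← hGs] at hTne
          exact Finset.not_nonempty_empty hTne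
        · rw [hGs]
          refine gs_min κ c hκ hc n hn H T hTne (htT hTs) ?_ ?_
          · rw [← gs_ev_filter κ c H hTs]
            exact hT0
          · intro T' hT' hne' h0'
            apply hTmin
            refine Finset.mem_filter.2 ⟨Finset.mem_powerset.2 (hT'.trans hTs), hne', ?_⟩
            rw [gs_ev_filter κ c H (hT'.trans hTs)]
            exact h0'
        · rw [hGs]
          exact hTs
      · obtain ⟨h1, h2, h3, h4⟩ := hL2 F hF
        exact ⟨h1, h2, h3, h4.trans hH'sub⟩
    · refine List.Pairwise.cons ?_ hL3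
      intro F hF
      obtain ⟨-, -, -, h4⟩ := hL2 F hF
      rw [hGs]
      refine Finset.disjoint_of_subset_right h4 ?_
      rw [hH's]
      exact Finset.disjoint_sdiff

end STri
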