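import Pool.Agent.Helper9.ST.V

/-!
Piece PG: the gap theorem for minimal vanishing sums of `(X + c)^a X^b`.

PROOF.  First coordinate bound follows from the second one by the substitution
`X ↦ - X - C c` (`Polynomial.comp (- X - C c)`), which maps `mon c (a, b)` to
`(-1)^(a+b) mon c (b, a)`; apply the second coordinate bound to `S.image Prod.swap` with the
coefficients `g' z = (-1)^(z.1+z.2) g z.swap` (do this as a separate lemma).

Second coordinate: write `n w = (S.filter (·.2 < w.2)).card`, `φ₀ = min z.2` over `S`.  CLAIM: for all `w ∈ S`,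
`w.2 ≤ φ₀ + (n w).choose 2`; by strong induction on `n w` (or on `w.2`).  If `n w = 0` then `w.2 = φ₀`.
Otherwise `A = S.filter (·.2 < w.2)` is nonempty and `A ≠ S` (`w ∉ A`), so by `hmin`
`Q = ∑_{z∈A} C (g z) * mon c z ≠ 0`.  By `h0`, `Q = - ∑_{z∈S \ A} C (g z) * mon c z` is divisible by
`X ^ w.2`.  By `order_bound'` (piece V) with `T = A`, there is `z ∈ A` with
`w.2 ≤ z.2 + (A.filter (z.2 ≤ ·.2)).card.choose 2`, and
`(A.filter (z.2 ≤ ·.2)).card = n w - n z` (as `S.filter (·.2 < z.2) ⊆ A`); with the claim for `z` and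
`a.choose 2 + b.choose 2 ≤ (a + b).choose 2` we get the claim for `w`.
Finally `n w ≤ S.card - 1`.  For arbitrary `z, w ∈ S`: `z.2 ≤ φ₀ + (S.card-1).choose 2 ≤ w.2 + ...`.
-/

namespace STri

open Polynomial

private theorem pg_choose (a b : ℕ) : a.choose 2 + b.choose 2 ≤ (a + b).choose 2 := by
  induction b with
  | zero => simp
  | succ b ih =>
    have h1 : (b + 1).choose 2 = b.choose 1 + b.choose 2 := rfl
    have h2 : (a + (b + 1)).choose 2 = (a + b).choose 1 + (a + b).choose 2 := rfl
    rw [h1, h2, Nat.choose_one_right, Nat.choose_one_right]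
    omega

private theorem pg_snd {K : Type*} [Field K] (c : K) (hc : c ≠ 0) (D : ℕ) (hD : CharOK K D)
    (S : Finset (ℕ × ℕ)) (hS : ∀ z ∈ S, z.1 + z.2 ≤ D) (g : ℕ × ℕ → K)
    (h0 : ∑ z ∈ S, C (g z) * mon c z = 0)
    (hmin : ∀ T ⊆ S, T.Nonempty → ∑ z ∈ T, C (g z) * mon c z = 0 → T = S) :
    ∀ z ∈ S, ∀ w ∈ S, z.2 ≤ w.2 + (S.card - 1).choose 2 := by
  classical
  intro z₁ hz₁ w₁ hw₁
  obtain ⟨z₀, hz₀, hz₀min⟩ := Finset.exists_min_image S (fun z => z.2) ⟨z₁, hz₁⟩
  have claim : ∀ n : ℕ, ∀ w ∈ S, (S.filter (fun z => z.2 < w.2)).card = n →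
      w.2 ≤ z₀.2 + n.choose 2 := by
    intro n
    induction n using Nat.strong_induction_on with
    | _ n ih =>
      intro w hw hn
      set A := S.filter (fun z => z.2 < w.2) with hA
      rcases Finset.eq_empty_or_nonempty A with hemp | hne
      · have : ¬ z₀.2 < w.2 := by
          intro hlt
          have : z₀ ∈ A := Finset.mem_filter.2 ⟨hz₀, hlt⟩
          rw [hemp] at this
          exact absurd this (Finset.notMem_empty _)
        omega
      · have hAS : A ⊆ S := Finset.filter_subset _ _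
        have hwA : w ∉ A := by
          intro h
          exact lt_irrefl _ (Finset.mem_filter.1 h).2
        have hQ : ∑ z ∈ A, C (g z) * mon c z ≠ 0 := by
          intro h
          have := hmin A hAS hne h
          exact hwA (this ▸ hw)
        have hdvd : X ^ w.2 ∣ ∑ z ∈ A, C (g z) * mon c z := by
          have hsum : ∑ z ∈ S \ A, C (g z) * mon c z + ∑ z ∈ A, C (g z) * mon c z = 0 := by
            rw [Finset.sum_sdiff hAS, h0]
          have h1 : X ^ w.2 ∣ ∑ z ∈ S \ A, C (g z) * mon c z := by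
            refine Finset.dvd_sum fun z hz => ?_
            obtain ⟨hzS, hzA⟩ := Finset.mem_sdiff.1 hz
            have hle : w.2 ≤ z.2 := by
              by_contra hlt
              exact hzA (Finset.mem_filter.2 ⟨hzS, not_le.1 hlt⟩)
            exact Dvd.dvd.mul_left (Dvd.dvd.mul_left (pow_dvd_pow X hle) _) _
          have h2 : ∑ z ∈ A, C (g z) * mon c z = -∑ z ∈ S \ A, C (g z) * mon c z :=
            eq_neg_of_add_eq_zero_right hsum
          rw [h2]
          exact (dvd_neg).2 h1
        obtain ⟨z, hzA, hz⟩ := order_bound' c hc D hD A (fun z hz => hS z (hAS hz)) g hQ w.2 hdvd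
        obtain ⟨hzS, hzw⟩ := Finset.mem_filter.1 hzA
        have hcard : (A.filter (fun z' => z.2 ≤ z'.2)).card
            + (S.filter (fun z' => z'.2 < z.2)).card = A.card := by
          have h1 := Finset.card_filter_add_card_filter_not (s := A) (fun z' => z.2 ≤ z'.2)
          have h2 : A.filter (fun z' => ¬ z.2 ≤ z'.2) = S.filter (fun z' => z'.2 < z.2) := by
            ext y
            simp only [hA, Finset.mem_filter, not_le]
            constructor
            · rintro ⟨⟨h1, _⟩, h3⟩
              exact ⟨h1, h3⟩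
            · rintro ⟨h1, h3⟩
              exact ⟨⟨h1, lt_trans h3 hzw⟩, h3⟩
          rw [h2] at h1
          exact h1
        have hpos : 0 < (A.filter (fun z' => z.2 ≤ z'.2)).card :=
          Finset.card_pos.2 ⟨z, Finset.mem_filter.2 ⟨hzA, le_refl _⟩⟩
        have hih := ih (S.filter (fun z' => z'.2 < z.2)).card (by omega) z hzS rfl
        have hch := pg_choose (A.filter (fun z' => z.2 ≤ z'.2)).card
          (S.filter (fun z' => z'.2 < z.2)).card
        rw [hcard, hn] at hch
        omega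
  have h1 := claim _ z₁ hz₁ rfl
  have h2 : (S.filter (fun z => z.2 < z₁.2)).card ≤ S.card - 1 := by
    have hsub : S.filter (fun z => z.2 < z₁.2) ⊆ S.erase z₁ := by
      intro y hy
      obtain ⟨hyS, hy2⟩ := Finset.mem_filter.1 hy
      refine Finset.mem_erase.2 ⟨?_, hyS⟩
      rintro rfl
      exact lt_irrefl _ hy2
    have := Finset.card_le_card hsub
    rwa [Finset.card_erase_of_mem hz₁] at this
  have h3 := Nat.choose_le_choose 2 h2
  have h4 := hz₀min w₁ hw₁
  omega

private theorem pg_comp {K : Type*} [Field K] (c : K) (g : ℕ × ℕ → K) (T : Finset (ℕ × ℕ)) :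
    ∑ z ∈ T.image Prod.swap, C ((-1) ^ (z.1 + z.2) * g z.swap) * mon c z
      = (∑ z ∈ T, C (g z) * mon c z).comp (-X - C c) := by
  classical
  rw [Finset.sum_image (fun x _ y _ h => Prod.swap_injective h), Polynomial.sum_comp]
  refine Finset.sum_congr rfl fun z _ => ?_
  rw [mul_comp, C_comp, mon, mon, mul_comp, pow_comp, pow_comp, add_comp, X_comp, C_comp]
  have e1 : (-X - C c + C c : K[X]) = (-1) * X := by ring
  have e2 : (-X - C c : K[X]) = (-1) * (X + C c) := by ring
  rw [e1, e2, mul_pow, mul_pow, Prod.swap_swap, C_mul, C_pow, C_neg, C_1, Prod.fst_swap,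
    Prod.snd_swap, pow_add]
  ring

private theorem pg_comp_eq_zero {K : Type*} [Field K] (c : K) (P : K[X])
    (h : P.comp (-X - C c) = 0) : P = 0 := by
  have h1 : (P.comp (-X - C c)).comp (-X - C c) = P := by
    rw [comp_assoc]
    have : (-X - C c : K[X]).comp (-X - C c) = X := by
      rw [sub_comp, neg_comp, X_comp, C_comp]
      ring
    rw [this, comp_X]
  rw [← h1, h, zero_comp]

theorem gap {K : Type*} [Field K] (c : K) (hc : c ≠ 0) (D : ℕ) (hD : CharOK K D)
    (S : Finset (ℕ × ℕ)) (hS : ∀ z ∈ S, z.1 + z.2 ≤ D) (g : ℕ × ℕ → K)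
    (h0 : ∑ z ∈ S, C (g z) * mon c z = 0)
    (hmin : ∀ T ⊆ S, T.Nonempty → ∑ z ∈ T, C (g z) * mon c z = 0 → T = S) :
    ∀ z ∈ S, ∀ w ∈ S, z.2 ≤ w.2 + (S.card - 1).choose 2 ∧
      z.1 ≤ w.1 + (S.card - 1).choose 2 := by
  classical
  intro z hz w hw
  refine ⟨pg_snd c hc D hD S hS g h0 hmin z hz w hw, ?_⟩
  have hcard : (S.image Prod.swap).card = S.card :=
    Finset.card_image_of_injective S Prod.swap_injective
  have key := pg_snd c hc D hD (S.image Prod.swap) ?_
    (fun z => (-1) ^ (z.1 + z.2) * g z.swap) ?_ ?_ z.swap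
    (Finset.mem_image_of_mem _ hz) w.swap (Finset.mem_image_of_mem _ hw)
  · rw [hcard] at key
    exact key
  · intro y hy
    obtain ⟨x, hx, rfl⟩ := Finset.mem_image.1 hy
    have := hS x hx
    rw [Prod.fst_swap, Prod.snd_swap]
    omega
  · rw [pg_comp, h0, zero_comp]
  · intro T hT hTne hTs
    have hT' : (T.image Prod.swap).image Prod.swap = T := by
      rw [Finset.image_image, Prod.swap_swap_eq, Finset.image_id]
    have hsub : T.image Prod.swap ⊆ S := by
      intro y hy
      obtain ⟨x, hx, rfl⟩ := Finset.mem_image.1 hy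
      obtain ⟨s, hs, hs'⟩ := Finset.mem_image.1 (hT hx)
      rw [← hs', Prod.swap_swap]
      exact hs
    rw [← hT', pg_comp] at hTs
    have h1 := hmin _ hsub (hTne.image _) (pg_comp_eq_zero c _ hTs)
    rw [← hT', h1]

end STri
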