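import Pool.Agent.Helper9.ST.W2

/-!
Piece V: order bound without independence.

PROOF.  Let `Q = ∑_{z∈T} C (d z) * mon c z ≠ 0`.  Among all pairs (`B ⊆ T`, `d'`) with
`Q = ∑_{z∈B} C (d' z) * mon c z` take one with `B.card` minimal.  Then
(i) `d' z ≠ 0` for `z ∈ B` (otherwise erase `z`);
(ii) `fun z : B => mon c z` is linearly independent: otherwise there is a relation
`∑_{z∈B} C (e z) * mon c z = 0` with `e z₁ ≠ 0` for some `z₁ ∈ B`, and subtracting `d' z₁ / e z₁` times it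
from the expression of `Q` gives an expression over `B.erase z₁`.
`B` is nonempty since `Q ≠ 0`.  Let `z₀ ∈ B` have minimal `z₀.2`.  By `order_bound`
`m ≤ z₀.2 + B.card.choose 2`, and `B ⊆ T.filter (z₀.2 ≤ ·.2)`, so
`B.card.choose 2 ≤ (T.filter ..).card.choose 2` (`Nat.choose_le_choose`).
-/

namespace STri

open Polynomial

theorem order_bound' {K : Type*} [Field K] (c : K) (hc : c ≠ 0) (D : ℕ) (hD : CharOK K D)
    (T : Finset (ℕ × ℕ)) (hT : ∀ z ∈ T, z.1 + z.2 ≤ D) (d : ℕ × ℕ → K)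
    (hne : ∑ z ∈ T, C (d z) * mon c z ≠ 0) (m : ℕ)
    (hm : X ^ m ∣ ∑ z ∈ T, C (d z) * mon c z) :
    ∃ z ∈ T, m ≤ z.2 + (T.filter (fun z' => z.2 ≤ z'.2)).card.choose 2 := by
  classical
  have hex : ∃ n, ∃ B ⊆ T, ∃ d' : ℕ × ℕ → K,
      ∑ z ∈ T, C (d z) * mon c z = ∑ z ∈ B, C (d' z) * mon c z ∧ B.card = n :=
    ⟨T.card, T, subset_rfl, d, rfl, rfl⟩
  obtain ⟨B, hBT, d', hQB, hcard⟩ := Nat.find_spec hex
  have hmin : ∀ B' ⊆ T, ∀ e : ℕ × ℕ → K,
      ∑ z ∈ T, C (d z) * mon c z = ∑ z ∈ B', C (e z) * mon c z → B.card ≤ B'.card := by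
    intro B' hB' e he
    rw [hcard]
    exact Nat.find_min' hex ⟨B', hB', e, he, rfl⟩
  have hd' : ∀ z ∈ B, d' z ≠ 0 := by
    intro z hz h0
    have h1 := hmin (B.erase z) ((Finset.erase_subset _ _).trans hBT) d' (by
      rw [hQB, ← Finset.add_sum_erase B _ hz, h0]
      simp)
    have h2 := Finset.card_erase_lt_of_mem hz
    omega
  have hind : LinearIndependent K (fun z : B => mon c (z : ℕ × ℕ)) := by
    rw [Fintype.linearIndependent_iff]
    by_contra hcon
    push Not at hcon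
    obtain ⟨g, hg, z₁, hz₁⟩ := hcon
    let e : ℕ × ℕ → K := fun z => if h : z ∈ B then g ⟨z, h⟩ else 0
    have heg : ∀ z : B, e z = g z := fun z => by
      simp only [e]
      rw [dif_pos z.2]
    have hrel : ∑ z ∈ B, C (e z) * mon c z = 0 := by
      rw [← Finset.sum_coe_sort B (fun z => C (e z) * mon c z), ← hg]
      refine Finset.sum_congr rfl fun z _ => ?_
      rw [heg z, Polynomial.smul_eq_C_mul]
    have he1 : e z₁ ≠ 0 := by rw [heg]; exact hz₁
    have hz1B : (z₁ : ℕ × ℕ) ∈ B := z₁.2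
    have hQ2 : ∑ z ∈ T, C (d z) * mon c z
        = ∑ z ∈ B, C (d' z - d' z₁ / e z₁ * e z) * mon c z := by
      have h1 : ∑ z ∈ B, C (d' z - d' z₁ / e z₁ * e z) * mon c z
          = ∑ z ∈ B, C (d' z) * mon c z
            - C (d' z₁ / e z₁) * ∑ z ∈ B, C (e z) * mon c z := by
        rw [Finset.mul_sum, ← Finset.sum_sub_distrib]
        refine Finset.sum_congr rfl fun z _ => ?_
        rw [C_sub, C_mul]
        ring
      rw [h1, hrel, mul_zero, sub_zero, hQB]
    have h1 := hmin (B.erase z₁) ((Finset.erase_subset _ _).trans hBT)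
      (fun z => d' z - d' z₁ / e z₁ * e z) (by
        rw [hQ2, ← Finset.add_sum_erase B _ hz1B, div_mul_cancel₀ _ he1, sub_self]
        simp)
    have h2 := Finset.card_erase_lt_of_mem hz1B
    omega
  have hBne : B.Nonempty := by
    rw [Finset.nonempty_iff_ne_empty]
    rintro rfl
    apply hne
    rw [hQB, Finset.sum_empty]
  obtain ⟨z₀, hz₀, hz₀min⟩ := Finset.exists_min_image B (fun z => z.2) hBne
  refine ⟨z₀, hBT hz₀, ?_⟩
  have hob := order_bound c hc D hD B (fun z hz => hT z (hBT hz)) hind d' z₀ hz₀ (hd' z₀ hz₀) m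
    (hQB ▸ hm)
  refine hob.trans (Nat.add_le_add_left (Nat.choose_le_choose 2 (Finset.card_le_card ?_)) _)
  intro z hz
  exact Finset.mem_filter.2 ⟨hBT hz, hz₀min z hz⟩

end STri
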