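import Pool.Agent.Helper9.ST.Defs

/-!
Piece W1: the Wronskian of independent polynomials with respect to `del c` is nonzero.

PROOF.  `del c P = X (X + c) P'`.  If `P` has degree `d` and leading coefficient `a` then
`(del c)^[r] P` has degree at most `d + r` and its coefficient at `X^(d+r)` is
`a d (d+1) ... (d+r-1)`  (induct on `r`: if `coeff` of `Q` at `e` is `b` and `natDegree Q ≤ e`
then `natDegree (del c Q) ≤ e+1` and the coefficient of `del c Q` at `e+1` is `e b`).

Strong induction on `∑ i, (w i).natDegree`.

Case 1: the degrees `d_j = natDegree (w j)` are pairwise distinct.  The entry `(r, j)` has degree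
`≤ r + d_j`, so the coefficient of the determinant at `∑ r + ∑ d_j` is the determinant of the
matrix of coefficients  `a_j d_j (d_j+1) ... (d_j+r-1)`; it is `∏ a_j` times
`det (d_j (d_j+1) ... (d_j+r-1))`, and this is the Vandermonde determinant
`∏_{i<j} (d_j - d_i)` because `y(y+1)...(y+r-1)` is monic of degree `r` in `y`
(Mathlib: `Matrix.det_eval_matrixOfPolynomials_eq_det_vandermonde` or
`Matrix.det_vandermonde`, `ascPochhammer`).  It is nonzero since
`0 < |d_j - d_i| ≤ D` and `CharOK K D`.  (All `a_j ≠ 0` since `w j ≠ 0` by independence.)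

Case 2: `natDegree (w i) = natDegree (w j)` for some `i ≠ j`.  Both are nonzero.  Replace `w j`
by `w' j = w j - C a * w i` where `a` is the quotient of the leading coefficients.  The
determinant does not change (`del c` is `K`-linear; column operation), the family stays
independent, `w' j ≠ 0`, and `w' j` has smaller degree unless both are constants; but
if both are constants they are dependent.  So the sum of degrees drops.
-/

namespace STri

open Polynomial

/-- Degree and top coefficient of `del c Q`. -/
theorem del_top {K : Type*} [Field K] (c : K) (Q : K[X]) (e : ℕ) (h : Q.natDegree ≤ e) :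
    (del c Q).natDegree ≤ e + 1 ∧ (del c Q).coeff (e + 1) = (e : K) * Q.coeff e := by
  unfold del
  rcases Nat.eq_zero_or_pos e with rfl | he
  · have hQ : Q = C (Q.coeff 0) := eq_C_of_natDegree_le_zero h
    rw [hQ]
    simp
  obtain ⟨e, rfl⟩ : ∃ e', e = e' + 1 := ⟨e - 1, by omega⟩
  have h1 : (X + C c).natDegree ≤ 1 := by
    rw [natDegree_X_add_C]
  have h2 : (derivative Q).natDegree ≤ e := by
    refine (natDegree_derivative_le Q).trans ?_
    omega
  have h3 : (X * (X + C c)).natDegree ≤ 2 := by
    refine natDegree_mul_le.trans ?_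
    rw [natDegree_X]
    omega
  constructor
  · refine natDegree_mul_le.trans ?_
    omega
  · have h4 : (X * (X + C c) * derivative Q).coeff (2 + e) =
        (X * (X + C c)).coeff 2 * (derivative Q).coeff e :=
      coeff_mul_add_eq_of_natDegree_le h3 h2
    have h5 : (X * (X + C c)).coeff 2 = 1 := by
      rw [coeff_X_mul]
      simp
    rw [h5, one_mul, coeff_derivative] at h4
    rw [show e + 1 + 1 = 2 + e by omega, h4]
    push_cast
    ring

theorem iter_top {K : Type*} [Field K] (c : K) (P : K[X]) (r : ℕ) :
    ((del c)^[r] P).natDegree ≤ P.natDegree + r ∧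
      ((del c)^[r] P).coeff (P.natDegree + r) =
        P.leadingCoeff * (ascPochhammer K r).eval (P.natDegree : K) := by
  induction r with
  | zero => simp
  | succ r ih =>
    rw [Function.iterate_succ_apply']
    obtain ⟨h1, h2⟩ := del_top c _ _ ih.1
    refine ⟨by rw [← add_assoc]; exact h1, ?_⟩
    rw [← add_assoc, h2, ih.2, ascPochhammer_succ_eval]
    push_cast
    ring

theorem prod_top {K ι : Type*} [Field K] (s : Finset ι) (f : ι → K[X]) (d : ι → ℕ)
    (h : ∀ i ∈ s, (f i).natDegree ≤ d i) :
    (∏ i ∈ s, f i).natDegree ≤ ∑ i ∈ s, d i ∧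
      (∏ i ∈ s, f i).coeff (∑ i ∈ s, d i) = ∏ i ∈ s, (f i).coeff (d i) := by
  classical
  induction s using Finset.induction_on with
  | empty => simp
  | insert a s ha ih =>
    obtain ⟨h1, h2⟩ := ih fun i hi => h i (Finset.mem_insert_of_mem hi)
    have h3 := h a (Finset.mem_insert_self a s)
    rw [Finset.prod_insert ha, Finset.sum_insert ha, Finset.prod_insert ha]
    refine ⟨natDegree_mul_le.trans (add_le_add h3 h1), ?_⟩
    rw [coeff_mul_add_eq_of_natDegree_le h3 h1, h2]

theorem det_top {K : Type*} [Field K] {k : ℕ} (M : Matrix (Fin k) (Fin k) K[X]) (d : Fin k → ℕ)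
    (h : ∀ r j, (M r j).natDegree ≤ d j + (r : ℕ)) :
    M.det.coeff (∑ j, d j + ∑ r : Fin k, (r : ℕ)) =
      Matrix.det (Matrix.of fun r j : Fin k => (M r j).coeff (d j + (r : ℕ))) := by
  rw [Matrix.det_apply, Matrix.det_apply, finsetSum_coeff]
  refine Finset.sum_congr rfl fun σ _ => ?_
  have h1 : ∑ j, d j + ∑ r : Fin k, (r : ℕ) = ∑ i, (d i + ((σ i : Fin k) : ℕ)) := by
    rw [Finset.sum_add_distrib]
    congr 1
    exact (Equiv.sum_comp σ fun r : Fin k => (r : ℕ)).symm
  have h2 := (prod_top Finset.univ (fun i => M (σ i) i) (fun i => d i + ((σ i : Fin k) : ℕ))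
    fun i _ => h _ _).2
  rw [h1]
  rcases Int.units_eq_one_or (Equiv.Perm.sign σ) with hs | hs <;> rw [hs] <;>
    simp [h2]

theorem del_add {K : Type*} [Field K] (c : K) (P Q : K[X]) :
    del c (P + Q) = del c P + del c Q := by
  unfold del
  rw [derivative_add]
  ring

theorem del_C_mul {K : Type*} [Field K] (c a : K) (P : K[X]) :
    del c (C a * P) = C a * del c P := by
  unfold del
  rw [derivative_C_mul]
  ring

theorem iter_add_C_mul {K : Type*} [Field K] (c a : K) (P Q : K[X]) (r : ℕ) :
    (del c)^[r] (P + C a * Q) = (del c)^[r] P + C a * (del c)^[r] Q := by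
  induction r with
  | zero => simp
  | succ r ih =>
    rw [Function.iterate_succ_apply', ih, del_add, del_C_mul, Function.iterate_succ_apply',
      Function.iterate_succ_apply']

theorem wronskian_ne {K : Type*} [Field K] {k : ℕ} (c : K) (D : ℕ) (hD : CharOK K D)
    (w : Fin k → K[X]) (hw : LinearIndependent K w) (hd : ∀ i, (w i).natDegree ≤ D) :
    Matrix.det (Matrix.of fun r j : Fin k => (del c)^[(r : ℕ)] (w j)) ≠ 0 := by
  classical
  obtain ⟨n, hn⟩ : ∃ n, ∑ i, (w i).natDegree = n := ⟨_, rfl⟩
  induction n using Nat.strong_induction_on generalizing w with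
  | _ n ih =>
  have hne : ∀ i, w i ≠ 0 := fun i => hw.ne_zero i
  by_cases hinj : Function.Injective fun i => (w i).natDegree
  · -- distinct degrees
    intro h0
    have h1 := det_top (Matrix.of fun r j : Fin k => (del c)^[(r : ℕ)] (w j))
      (fun j => (w j).natDegree) (fun r j => (iter_top c (w j) r).1)
    rw [h0, coeff_zero] at h1
    have h2 : (Matrix.of fun r j : Fin k =>
        ((Matrix.of fun r j : Fin k => (del c)^[(r : ℕ)] (w j)) r j).coeff
          ((w j).natDegree + (r : ℕ))) =
        Matrix.of fun r j : Fin k => (w j).leadingCoeff *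
          (Matrix.of fun r j : Fin k =>
            (ascPochhammer K (r : ℕ)).eval ((w j).natDegree : K)) r j := by
      ext r j
      exact (iter_top c (w j) r).2
    rw [h2, Matrix.det_mul_row, ← Matrix.det_transpose] at h1
    have h3 : (Matrix.of fun r j : Fin k =>
        (ascPochhammer K (r : ℕ)).eval ((w j).natDegree : K)).transpose =
        Matrix.of fun i j : Fin k =>
          ((fun j : Fin k => ascPochhammer K (j : ℕ)) j).eval
            ((fun j => ((w j).natDegree : K)) i) := by
      ext i j
      rfl
    rw [h3, ← Matrix.det_eval_matrixOfPolynomials_eq_det_vandermonde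
      (fun j => ((w j).natDegree : K)) (fun j : Fin k => ascPochhammer K (j : ℕ))
      (fun i => ascPochhammer_natDegree _ _) (fun i => monic_ascPochhammer _ _)] at h1
    have h4 : (Matrix.vandermonde fun j => ((w j).natDegree : K)).det ≠ 0 := by
      rw [Matrix.det_vandermonde_ne_zero_iff]
      intro i j hij
      apply hinj
      simp only at hij ⊢
      by_contra hc
      rcases lt_or_gt_of_ne hc with hlt | hlt
      · refine hD ((w j).natDegree - (w i).natDegree) (by omega) ?_ ?_
        · have := hd j
          omega
        · rw [Nat.cast_sub hlt.le, hij, sub_self]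
      · refine hD ((w i).natDegree - (w j).natDegree) (by omega) ?_ ?_
        · have := hd i
          omega
        · rw [Nat.cast_sub hlt.le, hij, sub_self]
    rcases mul_eq_zero.mp h1.symm with h5 | h5
    · rw [Finset.prod_eq_zero_iff] at h5
      obtain ⟨i, _, hi⟩ := h5
      exact hne i (leadingCoeff_eq_zero.mp hi)
    · exact h4 h5
  · -- two equal degrees
    have hinj' : ∃ i j, (w i).natDegree = (w j).natDegree ∧ i ≠ j := by
      simpa [Function.Injective] using hinj
    obtain ⟨i, j, hij, hne'⟩ := hinj'
    set a : K := -((w j).leadingCoeff / (w i).leadingCoeff) with ha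
    set w' : Fin k → K[X] := Function.update w j (w j + C a * w i) with hw'
    have hlc : (w i).leadingCoeff ≠ 0 := leadingCoeff_ne_zero.mpr (hne i)
    have hM : (Matrix.of fun r j : Fin k => (del c)^[(r : ℕ)] (w' j)) =
        Matrix.updateCol (Matrix.of fun r j : Fin k => (del c)^[(r : ℕ)] (w j)) j
          (fun r => (Matrix.of fun r j : Fin k => (del c)^[(r : ℕ)] (w j)) r j +
            C a • (Matrix.of fun r j : Fin k => (del c)^[(r : ℕ)] (w j)) r i) := by
      ext1 r l
      by_cases hl : l = j
      · subst hl
        rw [Matrix.updateCol_self, Matrix.of_apply, hw', Function.update_self,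
          iter_add_C_mul]
        rfl
      · rw [Matrix.updateCol_ne hl, Matrix.of_apply, hw', Function.update_of_ne hl]
        rfl
    have hdet := Matrix.det_updateCol_add_smul_self
      (Matrix.of fun r j : Fin k => (del c)^[(r : ℕ)] (w j)) (i := j) (j := i) hne'.symm (C a)
    rw [← hM] at hdet
    rw [← hdet]
    have hli : LinearIndependent K w' := by
      have h1 : w' = w + ((fun l => if l = j then a else 0) · • w i) := by
        funext l
        by_cases hl : l = j
        · subst hl
          simp [hw', smul_eq_C_mul]
        · simp [hw', Function.update_of_ne hl, hl]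
      rw [h1, linearIndependent_add_smul_iff]
      · exact hw
      · simp [hne']
    have hle : (w j + C a * w i).natDegree ≤ (w j).natDegree := by
      refine (natDegree_add_le _ _).trans (max_le le_rfl ?_)
      rw [← hij]
      exact natDegree_C_mul_le _ _
    have hco : (w j + C a * w i).coeff (w j).natDegree = 0 := by
      rw [coeff_add, coeff_C_mul]
      have e1 : (w j).coeff (w j).natDegree = (w j).leadingCoeff := rfl
      have e2 : (w i).coeff (w j).natDegree = (w i).leadingCoeff := by rw [← hij]; rfl
      rw [e1, e2, ha]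
      field_simp
      ring
    have hwj : w' j = w j + C a * w i := by rw [hw', Function.update_self]
    have hlt : (w' j).natDegree < (w j).natDegree := by
      refine lt_of_le_of_ne (hwj ▸ hle) fun heq => ?_
      have h0 : (w' j).leadingCoeff = 0 := by
        rw [leadingCoeff, heq, hwj, hco]
      exact hli.ne_zero j (leadingCoeff_eq_zero.mp h0)
    refine ih (∑ l, (w' l).natDegree) ?_ w' hli ?_ rfl
    · rw [← hn]
      refine Finset.sum_lt_sum (fun l _ => ?_) ⟨j, Finset.mem_univ _, hlt⟩
      by_cases hl : l = j
      · subst hl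
        exact hlt.le
      · rw [hw', Function.update_of_ne hl]
    · intro l
      by_cases hl : l = j
      · subst hl
        exact hlt.le.trans (hd l)
      · rw [hw', Function.update_of_ne hl]
        exact hd l

end STri
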