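import Pool.Agent.Helper9.ST.W1

/-!
Piece W2: bound for the order at `0` of a combination of independent monomials
`(X + c)^a X^b`.

PROOF.  Write `k = B.card`.
(a) `(del c)^[r] (mon c z) = p_{r,z} * mon c z` where `natDegree p_{r,z} ≤ r`:
`p_0 = 1`, `p_{r+1} = X (X + c) p_r' + ((z.1 + z.2) X + z.2 c) p_r`
(since `del c (mon c z) = (z.1 X + z.2 (X + c)) mon c z`; be careful with natural subtraction in
`derivative (X ^ n)`, treat exponent `0` separately or use `X * derivative (X^n) = n X^n`).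
(b) If `X^m ∣ Q` then `X^m ∣ del c Q`, hence `X^m ∣ (del c)^[r] Q`.
(c) Enumerate `B` as `e : Fin k ≃ B`; `W = det (of fun r j => (del c)^[r] (mon c (e j)))`.  By (a)
`W = (∏_{z ∈ B} mon c z) * det (p_{r,e j})` (`Matrix.det_mul_row` / `det_mul_column`).
`W ≠ 0` by `wronskian_ne` (piece W1; the degrees are `z.1 + z.2 ≤ D`), so `P = det (p_{r,e j}) ≠ 0`, and
`natDegree P ≤ 0 + 1 + ... + (k-1) = k.choose 2` (every product over a permutation has this
degree bound).
(d) Replace the column of `z₀` by `Q = ∑_{z∈B} C (d z) * mon c z`: the determinant becomes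
`d z₀ * W` (multilinearity and alternation: `Matrix.det_updateCol_sum` or
`Matrix.det_updateCol_eq...`, or write it as `W.updateCol j (∑ ...)`; all other summands have a repeated
column).  Every entry of the column `z₀` is divisible by `X^m` (b) and every entry of column
`z ≠ z₀` is divisible by `mon c z`, so `X^m * ∏_{z ≠ z₀} mon c z` divides
`d z₀ * (∏_{z∈B} mon c z) * P`; cancel: `X^m ∣ mon c z₀ * P = (X + c)^{z₀.1} X^{z₀.2} P`.  As `c ≠ 0`, `X` is
prime to `X + c`, so `X^m ∣ X^{z₀.2} P`, and if `m > z₀.2` then `X^{m - z₀.2} ∣ P`,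
so `m - z₀.2 ≤ natDegree P ≤ k.choose 2`.
-/

namespace STri

open Polynomial

/-- The polynomial factor of `(del c)^[r] (mon c z)`. -/
noncomputable def fac {K : Type*} [Field K] (c : K) (z : ℕ × ℕ) : ℕ → K[X]
  | 0 => 1
  | r + 1 => X * (X + C c) * derivative (fac c z r) +
      (C (z.1 : K) * X + C (z.2 : K) * (X + C c)) * fac c z r

theorem X_mul_derivative_pow {K : Type*} [Field K] (P : K[X]) (n : ℕ) :
    P * derivative (P ^ n) = C (n : K) * P ^ n * derivative P := by
  rcases Nat.eq_zero_or_pos n with rfl | hn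
  · simp
  · obtain ⟨n, rfl⟩ : ∃ n', n = n' + 1 := ⟨n - 1, by omega⟩
    rw [derivative_pow, Nat.add_sub_cancel, pow_succ P n]
    ring

theorem del_mon {K : Type*} [Field K] (c : K) (z : ℕ × ℕ) :
    del c (mon c z) = (C (z.1 : K) * X + C (z.2 : K) * (X + C c)) * mon c z := by
  unfold del mon
  have h1 := X_mul_derivative_pow (X + C c) z.1
  have h2 := X_mul_derivative_pow (X : K[X]) z.2
  rw [derivative_mul]
  have h3 : derivative (X + C c) = 1 := by simp
  rw [h3] at h1
  rw [derivative_X] at h2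
  linear_combination X * X ^ z.2 * h1 + (X + C c) * (X + C c) ^ z.1 * h2

theorem iter_mon {K : Type*} [Field K] (c : K) (z : ℕ × ℕ) (r : ℕ) :
    (del c)^[r] (mon c z) = fac c z r * mon c z := by
  induction r with
  | zero => simp [fac]
  | succ r ih =>
    rw [Function.iterate_succ_apply', ih]
    have h := del_mon c z
    unfold del at h ⊢
    rw [derivative_mul]
    rw [fac]
    linear_combination fac c z r * h

theorem fac_degree {K : Type*} [Field K] (c : K) (z : ℕ × ℕ) (r : ℕ) :
    (fac c z r).natDegree ≤ r := by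
  induction r with
  | zero => simp [fac]
  | succ r ih =>
    rw [fac]
    refine (natDegree_add_le _ _).trans (max_le ?_ ?_)
    · have h := (del_top c (fac c z r) r ih).1
      exact h
    · refine natDegree_mul_le.trans ?_
      have h1 : (C (z.1 : K) * X + C (z.2 : K) * (X + C c)).natDegree ≤ 1 := by
        compute_degree
      omega

theorem dvd_del {K : Type*} [Field K] (c : K) (m : ℕ) (Q : K[X]) (h : X ^ m ∣ Q) :
    X ^ m ∣ del c Q := by
  obtain ⟨R, rfl⟩ := h
  unfold del
  rw [derivative_mul]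
  have h2 := X_mul_derivative_pow (X : K[X]) m
  rw [derivative_X] at h2
  refine ⟨(X + C c) * (C (m : K) * R + X * derivative R), ?_⟩
  linear_combination (X + C c) * R * h2

theorem dvd_iter {K : Type*} [Field K] (c : K) (m : ℕ) (Q : K[X]) (h : X ^ m ∣ Q) (r : ℕ) :
    X ^ m ∣ (del c)^[r] Q := by
  induction r with
  | zero => simpa using h
  | succ r ih =>
    rw [Function.iterate_succ_apply']
    exact dvd_del c m _ ih

theorem iter_sum {K ι : Type*} [Field K] (c : K) (s : Finset ι) (d : ι → K) (f : ι → K[X])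
    (r : ℕ) : (del c)^[r] (∑ z ∈ s, C (d z) * f z) = ∑ z ∈ s, C (d z) * (del c)^[r] (f z) := by
  classical
  induction s using Finset.induction_on with
  | empty =>
    simp only [Finset.sum_empty]
    induction r with
    | zero => simp
    | succ r ih =>
      rw [Function.iterate_succ_apply', ih]
      simp [del]
  | insert a s ha ih =>
    rw [Finset.sum_insert ha, Finset.sum_insert ha, add_comm, iter_add_C_mul, ih, add_comm]

/-- degree of a determinant with row degree bounds -/
theorem det_degree {K : Type*} [Field K] {k : ℕ} (M : Matrix (Fin k) (Fin k) K[X])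
    (h : ∀ r j, (M r j).natDegree ≤ (r : ℕ)) : M.det.natDegree ≤ k.choose 2 := by
  have hsum : ∑ r : Fin k, (r : ℕ) = k.choose 2 := by
    rw [Fin.sum_univ_eq_sum_range (fun i => i) k, Finset.sum_range_id, Nat.choose_two_right]
  rw [Matrix.det_apply]
  refine (natDegree_sum_le_of_forall_le Finset.univ _ (n := k.choose 2) fun σ _ => ?_)
  have h2 := (prod_top Finset.univ (fun i => M (σ i) i) (fun i => ((σ i : Fin k) : ℕ))
    fun i _ => h _ _).1
  have h1 : ∑ i, ((σ i : Fin k) : ℕ) = ∑ r : Fin k, (r : ℕ) :=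
    Equiv.sum_comp σ fun r : Fin k => (r : ℕ)
  rw [h1, hsum] at h2
  rcases Int.units_eq_one_or (Equiv.Perm.sign σ) with hs | hs <;> rw [hs]
  · simpa using h2
  · simpa using h2

/-- divisibility of a determinant by the product of column divisors -/
theorem dvd_det {R : Type*} [CommRing R] {k : ℕ} (M : Matrix (Fin k) (Fin k) R) (g : Fin k → R)
    (h : ∀ r j, g j ∣ M r j) : ∏ j, g j ∣ M.det := by
  rw [Matrix.det_apply']
  refine Finset.dvd_sum fun σ _ => Dvd.dvd.mul_left ?_ _
  exact Finset.prod_dvd_prod_of_dvd _ _ fun j _ => h _ _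

theorem order_bound {K : Type*} [Field K] (c : K) (hc : c ≠ 0) (D : ℕ) (hD : CharOK K D)
    (B : Finset (ℕ × ℕ)) (hB : ∀ z ∈ B, z.1 + z.2 ≤ D)
    (hind : LinearIndependent K (fun z : B => mon c (z : ℕ × ℕ)))
    (d : ℕ × ℕ → K) (z₀ : ℕ × ℕ) (hz₀ : z₀ ∈ B) (hd : d z₀ ≠ 0) (m : ℕ)
    (hm : X ^ m ∣ ∑ z ∈ B, C (d z) * mon c z) : m ≤ z₀.2 + B.card.choose 2 := by
  classical
  set e : Fin B.card ≃ B := B.equivFin.symm with he
  set j₀ : Fin B.card := e.symm ⟨z₀, hz₀⟩ with hj₀
  have hej : ((e j₀ : B) : ℕ × ℕ) = z₀ := by rw [hj₀, Equiv.apply_symm_apply]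
  set M : Matrix (Fin B.card) (Fin B.card) K[X] :=
    Matrix.of fun r j : Fin B.card => (del c)^[(r : ℕ)] (mon c (e j : ℕ × ℕ)) with hMdef
  have hW : M.det ≠ 0 := by
    refine wronskian_ne c D hD (fun j => mon c (e j : ℕ × ℕ)) ?_ ?_
    · exact hind.comp e e.injective
    · intro i
      refine le_trans ?_ (hB _ (e i).2)
      unfold mon
      refine natDegree_mul_le.trans ?_
      rw [natDegree_X_pow]
      refine Nat.add_le_add_right ?_ _
      refine natDegree_pow_le.trans ?_
      rw [natDegree_X_add_C, mul_one]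
  set P : Matrix (Fin B.card) (Fin B.card) K[X] :=
    Matrix.of fun r j : Fin B.card => fac c (e j : ℕ × ℕ) r with hPdef
  have hMP : M.det = (∏ j, mon c (e j : ℕ × ℕ)) * P.det := by
    rw [← Matrix.det_mul_row]
    congr 1
    ext1 r j
    rw [hMdef, Matrix.of_apply, Matrix.of_apply, iter_mon, hPdef, Matrix.of_apply, mul_comm]
  have hmon : ∀ z, mon c z ≠ 0 := by
    intro z
    unfold mon
    exact mul_ne_zero (pow_ne_zero _ (X_add_C_ne_zero c)) (pow_ne_zero _ X_ne_zero)
  have hP0 : P.det ≠ 0 := by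
    intro h0
    rw [hMP, h0, mul_zero] at hW
    exact hW rfl
  have hPd : P.det.natDegree ≤ B.card.choose 2 :=
    det_degree P fun r j => fac_degree c _ _
  -- replace the column
  set Q : K[X] := ∑ z ∈ B, C (d z) * mon c z with hQ
  set M' : Matrix (Fin B.card) (Fin B.card) K[X] :=
    M.updateCol j₀ (fun r => (del c)^[(r : ℕ)] Q) with hM'
  have hcol : (fun r : Fin B.card => (del c)^[(r : ℕ)] Q) =
      fun r => ∑ j, C (d (e j : ℕ × ℕ)) • M r j := by
    funext r
    rw [hQ, iter_sum, ← Finset.sum_coe_sort B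
      (fun z => C (d z) * (del c)^[(r : ℕ)] (mon c z)), ← Equiv.sum_comp e]
    rfl
  have hdet : M'.det = C (d z₀) * M.det := by
    rw [hM', hcol]
    have h := Matrix.det_updateCol_sum M j₀ (fun j => C (d (e j : ℕ × ℕ)))
    rw [h, hej, smul_eq_mul]
  have hdvd : (∏ j, (if j = j₀ then X ^ m else mon c (e j : ℕ × ℕ))) ∣ M'.det := by
    refine dvd_det M' _ fun r j => ?_
    by_cases hj : j = j₀
    · subst hj
      rw [if_pos rfl, hM', Matrix.updateCol_self]
      exact dvd_iter c m Q hm _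
    · rw [if_neg hj, hM', Matrix.updateCol_ne hj, hMdef, Matrix.of_apply, iter_mon]
      exact Dvd.intro_left _ rfl
  rw [hdet, hMP] at hdvd
  have hsp1 : (∏ j, (if j = j₀ then X ^ m else mon c (e j : ℕ × ℕ))) =
      X ^ m * ∏ j ∈ Finset.univ.erase j₀, mon c (e j : ℕ × ℕ) := by
    rw [← Finset.mul_prod_erase Finset.univ _ (Finset.mem_univ j₀), if_pos rfl]
    congr 1
    refine Finset.prod_congr rfl fun j hj => ?_
    rw [if_neg (Finset.ne_of_mem_erase hj)]
  have hsp2 : (∏ j, mon c (e j : ℕ × ℕ)) =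
      mon c z₀ * ∏ j ∈ Finset.univ.erase j₀, mon c (e j : ℕ × ℕ) := by
    rw [← Finset.mul_prod_erase Finset.univ _ (Finset.mem_univ j₀), hej]
  set E : K[X] := ∏ j ∈ Finset.univ.erase j₀, mon c (e j : ℕ × ℕ) with hE
  have hE0 : E ≠ 0 := Finset.prod_ne_zero_iff.mpr fun j _ => hmon _
  rw [hsp1, hsp2] at hdvd
  have hdvd2 : X ^ m ∣ C (d z₀) * (mon c z₀ * P.det) := by
    refine (mul_dvd_mul_iff_right hE0).mp ?_
    refine hdvd.trans (dvd_of_eq ?_)
    ring
  have hunit : IsUnit (C (d z₀) : K[X]) := isUnit_C.mpr (IsUnit.mk0 _ hd)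
  have hdvd3 : X ^ m ∣ mon c z₀ * P.det := by
    obtain ⟨u, hu⟩ := hunit
    rw [← hu] at hdvd2
    exact (Units.dvd_mul_left).mp hdvd2
  have hdvd4 : X ^ m ∣ X ^ z₀.2 * P.det := by
    have hcop : IsCoprime (X ^ m : K[X]) ((X + C c) ^ z₀.1) := by
      refine IsCoprime.pow ?_
      refine ⟨-C c⁻¹, C c⁻¹, ?_⟩
      have : (C c⁻¹ : K[X]) * C c = 1 := by
        rw [← C_mul, inv_mul_cancel₀ hc, C_1]
      linear_combination this
    refine hcop.dvd_of_dvd_mul_left ?_
    refine hdvd3.trans (dvd_of_eq ?_)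
    unfold mon
    ring
  by_contra hlt
  push Not at hlt
  have h5 : X ^ (m - z₀.2) ∣ P.det := by
    have h6 : (X ^ m : K[X]) = X ^ z₀.2 * X ^ (m - z₀.2) := by
      rw [← pow_add]
      congr 1
      omega
    rw [h6] at hdvd4
    exact (mul_dvd_mul_iff_left (pow_ne_zero _ X_ne_zero)).mp hdvd4
  have h7 := natDegree_le_of_dvd h5 hP0
  rw [natDegree_X_pow] at h7
  omega

end STri
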